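import Pool.Agent.U457.GN.Law
import Pool.Agent.Results.MP_d02c56_nt.HittingLaw
import Pool.Agent.Results.MP_d02c56_nt.TailExplicit
import Pool.Agent.Results.MP_d02c56_nt.PairsMeetLow

/-!
The Collatz map on the integers: few pairs of trajectories merge far away. Author: helper457.
-/

set_option autoImplicit false

namespace Pool.Agent.U457.GN

open Filter Topology

/-- the Collatz map on the integers -/
def C (x : ℤ) : ℤ := if x % 2 = 0 then x / 2 else 3 * x + 1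

theorem C_even {x : ℤ} (h : x % 2 = 0) : C x = x / 2 := by unfold C; rw [if_pos h]

theorem C_odd {x : ℤ} (h : ¬ x % 2 = 0) : C x = 3 * x + 1 := by unfold C; rw [if_neg h]

theorem C_preimage {S : Set ℤ} (hS : S.Finite) : (C ⁻¹' S).Finite := by
  apply ((hS.image fun a => 2 * a).union (hS.image fun a => (a - 1) / 3)).subset
  intro x hx
  have hx' : C x ∈ S := hx
  by_cases h : x % 2 = 0
  · left
    refine ⟨C x, hx', ?_⟩
    show 2 * C x = x
    rw [C_even h]; omega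
  · right
    refine ⟨C x, hx', ?_⟩
    show (C x - 1) / 3 = x
    rw [C_odd h]; omega

/-- the height -/
noncomputable def ht (x : ℤ) : ℝ := |(x : ℝ)|

theorem ht_finite (Y : ℝ) : {v : ℤ | ht v < Y}.Finite := by
  apply (Set.finite_Icc (-⌈Y⌉) ⌈Y⌉).subset
  intro x hx
  have h1 : |(x : ℝ)| < Y := hx
  have h2 := abs_lt.1 h1
  have h3 := Int.le_ceil Y
  rw [Set.mem_Icc]
  constructor
  · have : (-(⌈Y⌉ : ℤ) : ℝ) ≤ x := by linarith
    exact_mod_cast this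
  · have : (x : ℝ) ≤ (⌈Y⌉ : ℤ) := by linarith
    exact_mod_cast this

theorem misses {s : ℤ} (hs : s = 1 ∨ s = -1) : ∃ A : ℝ, 0 < A ∧ ∀ (N : ℕ) (y : ℝ), 1 ≤ y →
    ct N (fun n => ∀ k : ℕ, y < |((C^[k] (s * n) : ℤ) : ℝ)|) ≤ A * N / y ^ (6 / 100 : ℝ) := by
  obtain ⟨A, hA, h⟩ := Pool.Agent.Results.MP_d02c56_nt.TailExplicit.result
  refine ⟨A, hA, fun N y hy => ?_⟩
  rcases Nat.eq_zero_or_pos N with rfl | hN
  · have : fn 0 (fun n => ∀ k : ℕ, y < |((C^[k] (s * n) : ℤ) : ℝ)|) = ∅ := by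
      ext n
      rw [mem_fn]
      constructor
      · rintro ⟨⟨h1, h2⟩, _⟩
        omega
      · intro h
        exact absurd h (Finset.notMem_empty n)
    unfold ct
    rw [this]
    simp
  have hN1 : (1 : ℝ) ≤ N := by exact_mod_cast hN
  refine le_trans ?_ (h N y hN1 hy).1
  rw [← ct_ncard]
  unfold Pool.Agent.Results.MP_d02c56_nt.TailExplicit.count
  have hfin : {x : ℤ | |(x : ℝ)| ≤ N ∧ ∀ k : ℕ,
      y < |((Pool.Agent.Results.MP_d02c56_nt.TailExplicit.C^[k] x : ℤ) : ℝ)|}.Finite := by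
    apply ((Set.finite_Icc (-(N : ℤ)) N)).subset
    rintro x ⟨hx, -⟩
    have h1 := abs_le.1 hx
    rw [Set.mem_Icc]
    constructor
    · exact_mod_cast h1.1
    · exact_mod_cast h1.2
  have h1 : Set.ncard {n : ℕ | 1 ≤ n ∧ n ≤ N ∧ ∀ k : ℕ, y < |((C^[k] (s * n) : ℤ) : ℝ)|}
      ≤ Set.ncard {x : ℤ | |(x : ℝ)| ≤ N ∧ ∀ k : ℕ,
      y < |((Pool.Agent.Results.MP_d02c56_nt.TailExplicit.C^[k] x : ℤ) : ℝ)|} := by
    refine Set.ncard_le_ncard_of_injOn (fun n : ℕ => s * (n : ℤ)) ?_ ?_ hfin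
    · rintro n ⟨_, h2, h3⟩
      refine ⟨?_, h3⟩
      have h4 : (n : ℝ) ≤ N := by exact_mod_cast h2
      rcases hs with rfl | rfl
      · push_cast
        rw [one_mul, abs_of_nonneg (Nat.cast_nonneg _)]
        exact h4
      · push_cast
        rw [abs_mul, abs_neg, abs_one, one_mul, abs_of_nonneg (Nat.cast_nonneg _)]
        exact h4
    · intro a _ b _ hab
      have hab' : s * (a : ℤ) = s * (b : ℤ) := hab
      rcases hs with rfl | rfl <;> omega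
  exact_mod_cast h1

theorem cp_or {N : ℕ} (P Q : ℕ → ℕ → Prop) : cp N (fun m n => P m n ∨ Q m n) ≤ cp N P + cp N Q := by
  classical
  have : fp N (fun m n => P m n ∨ Q m n) = fp N P ∪ fp N Q := by
    ext p
    rw [Finset.mem_union, mem_fp, mem_fp, mem_fp]
    tauto
  unfold cp
  rw [this]
  exact_mod_cast Finset.card_union_le _ _

theorem cp_mono {N : ℕ} {P Q : ℕ → ℕ → Prop} (h : ∀ m n, 1 ≤ m → m ≤ N → 1 ≤ n → n ≤ N →
    P m n → Q m n) : cp N P ≤ cp N Q := by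
  unfold cp
  have : fp N P ⊆ fp N Q := by
    intro p hp
    rw [mem_fp] at hp ⊢
    exact ⟨hp.1, h _ _ hp.1.1.1 hp.1.1.2 hp.1.2.1 hp.1.2.2 hp.2⟩
  exact_mod_cast Finset.card_le_card this

theorem cp_left (N : ℕ) (P : ℕ → Prop) : cp N (fun m _ => P m) = ct N P * N := by
  have : fp N (fun m _ => P m) = (fn N P) ×ˢ Finset.Icc 1 N := by
    ext p
    rw [Finset.mem_product, mem_fp, mem_fn, Finset.mem_Icc]
    tauto
  unfold cp ct
  rw [this, Finset.card_product]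
  simp

theorem cp_right (N : ℕ) (P : ℕ → Prop) : cp N (fun _ n => P n) = N * ct N P := by
  have : fp N (fun _ n => P n) = Finset.Icc 1 N ×ˢ (fn N P) := by
    ext p
    rw [Finset.mem_product, mem_fp, mem_fn, Finset.mem_Icc]
    tauto
  unfold cp ct
  rw [this, Finset.card_product]
  simp

theorem C_low (x : ℤ) : Pool.Agent.Results.MP_d02c56_nt.PairsMeetLow.C x = C x := by
  unfold Pool.Agent.Results.MP_d02c56_nt.PairsMeetLow.C C
  by_cases h : x % 2 = 0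
  · rw [if_pos (Int.even_iff.2 h), if_pos h]
  · rw [if_neg (fun h' => h (Int.even_iff.1 h')), if_neg h]

theorem meet_count {s : ℤ} (hs : s = 1 ∨ s = -1) : ∃ K : ℝ, 0 < K ∧ ∀ (N : ℕ) (Y : ℝ), 2 ≤ Y →
    cp N (fun m n => MeetAbove C ht Y (s * m) (s * n)) ≤ K * (N : ℝ) ^ 2 / Real.log Y := by
  classical
  obtain ⟨K, h⟩ := Pool.Agent.Results.MP_d02c56_nt.PairsMeetLow.result 1
  have hCC : Pool.Agent.Results.MP_d02c56_nt.PairsMeetLow.C = C := funext C_low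
  refine ⟨|K| + 1, by positivity, fun N Y hY => ?_⟩
  have hl : 0 < Real.log Y := Real.log_pos (by linarith)
  have h1 := h Y hY N
  rw [pow_one] at h1
  have h2 : K * (N : ℝ) ^ 2 / Real.log Y ≤ (|K| + 1) * (N : ℝ) ^ 2 / Real.log Y := by
    apply div_le_div_of_nonneg_right _ hl.le
    apply mul_le_mul_of_nonneg_right _ (by positivity)
    linarith [le_abs_self K]
  refine le_trans ?_ (h1.trans h2)
  have hfin : {p : ℤ × ℤ | |p.1| ≤ N ∧ |p.2| ≤ N ∧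
      Pool.Agent.Results.MP_d02c56_nt.PairsMeetLow.MeetAbove Y p.1 p.2}.Finite := by
    apply ((Set.finite_Icc (-(N : ℤ)) N).prod (Set.finite_Icc (-(N : ℤ)) N)).subset
    rintro ⟨a, b⟩ ⟨h3, h4, -⟩
    rw [Set.mem_prod, Set.mem_Icc, Set.mem_Icc]
    exact ⟨abs_le.1 h3, abs_le.1 h4⟩
  have h3 : (fp N (fun m n => MeetAbove C ht Y (s * m) (s * n))).card ≤
      Set.ncard {p : ℤ × ℤ | |p.1| ≤ N ∧ |p.2| ≤ N ∧
      Pool.Agent.Results.MP_d02c56_nt.PairsMeetLow.MeetAbove Y p.1 p.2} := by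
    rw [← Set.ncard_coe_finset]
    refine Set.ncard_le_ncard_of_injOn (fun p : ℕ × ℕ => (s * (p.1 : ℤ), s * (p.2 : ℤ))) ?_ ?_ hfin
    · rintro ⟨a, b⟩ hp
      rw [Finset.mem_coe, mem_fp] at hp
      obtain ⟨⟨⟨_, ha⟩, _, hb⟩, k, k', e1, e2, e3⟩ := hp
      simp only at ha hb e1 e2 e3
      have hab : ∀ c : ℕ, c ≤ N → |s * (c : ℤ)| ≤ N := by
        intro c hc
        rcases hs with rfl | rfl
        · rw [one_mul, abs_of_nonneg (Int.natCast_nonneg _)]; exact_mod_cast hc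
        · rw [abs_mul, abs_neg, abs_one, one_mul, abs_of_nonneg (Int.natCast_nonneg _)]
          exact_mod_cast hc
      refine ⟨hab a ha, hab b hb, k, k', ?_, ?_, ?_⟩
      · rw [hCC]; exact e1
      · rw [hCC]; exact e2
      · rw [hCC]; exact e3
    · rintro ⟨a, b⟩ _ ⟨a', b'⟩ _ hab
      have hab' : ((s * (a : ℤ), s * (b : ℤ)) : ℤ × ℤ) = (s * (a' : ℤ), s * (b' : ℤ)) := hab
      rw [Prod.mk.injEq] at hab' ⊢
      rcases hs with rfl | rfl <;> constructor <;> omega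
  unfold cp
  exact_mod_cast h3

/-- few pairs have a last private term, or are comparable, outside a finite set -/
theorem tight_both {s : ℤ} (hs : s = 1 ∨ s = -1) {ε : ℝ} (hε : 0 < ε) : ∃ G : Finset ℤ, ∀ N : ℕ,
    cp N (fun m n => (∃ c, c ∉ G ∧ Vis C (s * m) c ∧ ¬ Vis C (s * n) c ∧ Vis C (s * n) (C c)) ∨
      (Vis C (s * n) (s * m) ∧ s * (m : ℤ) ∉ G)) ≤ ε * (N : ℝ) ^ 2 := by
  classical
  obtain ⟨A, hA, hmiss⟩ := misses hs
  obtain ⟨K, hK, hmeet⟩ := meet_count hs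
  -- the heights
  obtain ⟨y, hy1, hy⟩ : ∃ y : ℝ, 1 ≤ y ∧ A / y ^ (6 / 100 : ℝ) ≤ ε / 4 := by
    have h1 : Tendsto (fun y : ℝ => A / y ^ (6 / 100 : ℝ)) atTop (𝓝 0) :=
      Tendsto.div_atTop tendsto_const_nhds (tendsto_rpow_atTop (by norm_num))
    obtain ⟨y, hy⟩ := ((eventually_ge_atTop (1 : ℝ)).and
      (h1.eventually_le_const (show (0 : ℝ) < ε / 4 by positivity))).exists
    exact ⟨y, hy.1, hy.2⟩
  obtain ⟨Y, hY2, hY⟩ : ∃ Y : ℝ, 2 ≤ Y ∧ K / Real.log Y ≤ ε / 4 := by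
    have h1 : Tendsto (fun Y : ℝ => K / Real.log Y) atTop (𝓝 0) :=
      Tendsto.div_atTop tendsto_const_nhds Real.tendsto_log_atTop
    obtain ⟨y, hy⟩ := ((eventually_ge_atTop (2 : ℝ)).and
      (h1.eventually_le_const (show (0 : ℝ) < ε / 4 by positivity))).exists
    exact ⟨y, hy.1, hy.2⟩
  have hF : {u : ℤ | ht u ≤ y}.Finite := (ht_finite (y + 1)).subset fun u hu => by
    have : ht u ≤ y := hu
    show ht u < y + 1
    linarith
  obtain ⟨G, hG, hG'⟩ := private_finite (f := C) (h := ht) ht_finite (fun S hS => C_preimage hS) Y hF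
  refine ⟨hG.toFinset, fun N => ?_⟩
  have h1 : cp N (fun m n => (∃ c, c ∉ hG.toFinset ∧ Vis C (s * m) c ∧ ¬ Vis C (s * n) c ∧
      Vis C (s * n) (C c)) ∨ (Vis C (s * n) (s * m) ∧ s * (m : ℤ) ∉ hG.toFinset)) ≤
      cp N (fun m n => ((∀ k : ℕ, y < |((C^[k] (s * m) : ℤ) : ℝ)|) ∨
        (∀ k : ℕ, y < |((C^[k] (s * n) : ℤ) : ℝ)|)) ∨ MeetAbove C ht Y (s * m) (s * n)) := by
    refine cp_mono fun m n _ _ _ _ hmn => ?_
    by_cases e1 : ∀ k : ℕ, y < |((C^[k] (s * m) : ℤ) : ℝ)|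
    · exact Or.inl (Or.inl e1)
    by_cases e2 : ∀ k : ℕ, y < |((C^[k] (s * n) : ℤ) : ℝ)|
    · exact Or.inl (Or.inr e2)
    right
    push Not at e1 e2
    obtain ⟨k, hk⟩ := e1
    obtain ⟨k', hk'⟩ := e2
    have h2 := hG' (s * m) (s * n) ⟨_, hk, k, rfl⟩ ⟨_, hk', k', rfl⟩
    rcases hmn with ⟨c, hc, hc1, hc2, hc3⟩ | ⟨hv, hm⟩
    · exact h2.1 c hc1 hc2 hc3 (fun h => hc (hG.mem_toFinset.2 h))
    · exact h2.2 hv (fun h => hm (hG.mem_toFinset.2 h))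
  refine h1.trans ((cp_or _ _).trans ?_)
  have h2 := cp_or (N := N) (fun m _ => ∀ k : ℕ, y < |((C^[k] (s * m) : ℤ) : ℝ)|)
    (fun _ n => ∀ k : ℕ, y < |((C^[k] (s * n) : ℤ) : ℝ)|)
  rw [cp_left N (fun m => ∀ k : ℕ, y < |((C^[k] (s * m) : ℤ) : ℝ)|),
    cp_right N (fun n => ∀ k : ℕ, y < |((C^[k] (s * n) : ℤ) : ℝ)|)] at h2
  have h3 := hmiss N y hy1
  have h4 := hmeet N Y hY2
  have h5 : A * N / y ^ (6 / 100 : ℝ) ≤ ε / 4 * N := by
    have := mul_le_mul_of_nonneg_right hy (Nat.cast_nonneg (α := ℝ) N)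
    calc A * N / y ^ (6 / 100 : ℝ) = A / y ^ (6 / 100 : ℝ) * N := by ring
      _ ≤ _ := this
  have h6 : K * (N : ℝ) ^ 2 / Real.log Y ≤ ε / 4 * (N : ℝ) ^ 2 := by
    have := mul_le_mul_of_nonneg_right hY (by positivity : (0 : ℝ) ≤ (N : ℝ) ^ 2)
    calc K * (N : ℝ) ^ 2 / Real.log Y = K / Real.log Y * (N : ℝ) ^ 2 := by ring
      _ ≤ _ := this
  have h7 : ct N (fun m => ∀ k : ℕ, y < |((C^[k] (s * m) : ℤ) : ℝ)|) ≤ ε / 4 * N := h3.trans h5
  have hN0 : (0 : ℝ) ≤ N := Nat.cast_nonneg _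
  have h8 := mul_le_mul_of_nonneg_right h7 hN0
  have h9 := mul_le_mul_of_nonneg_left h7 hN0
  have h10 : 0 ≤ ε * (N : ℝ) ^ 2 := by positivity
  nlinarith [h2, h4, h6, h8, h9, h10]

theorem tight_C {s : ℤ} (hs : s = 1 ∨ s = -1) : Tight C s := by
  intro ε hε
  obtain ⟨G, hG⟩ := tight_both hs hε
  refine ⟨G, fun N => le_trans (cp_mono fun m n _ _ _ _ h => ?_) (hG N)⟩
  exact Or.inl h

/-- comparable pairs are rare -/
theorem comparable_rare {s : ℤ} (hs : s = 1 ∨ s = -1) {ε : ℝ} (hε : 0 < ε) : ∃ N₀ : ℕ, ∀ N ≥ N₀,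
    cp N (fun m n => Vis C (s * n) (s * m)) ≤ ε * (N : ℝ) ^ 2 := by
  classical
  obtain ⟨G, hG⟩ := tight_both hs (ε := ε / 2) (by positivity)
  obtain ⟨N₀, hN₀⟩ := exists_nat_ge (2 * (G.card : ℝ) / ε)
  refine ⟨max N₀ 1, fun N hN => ?_⟩
  have hN1 : 1 ≤ N := (le_max_right _ _).trans hN
  have hNR : (0 : ℝ) < N := by exact_mod_cast hN1
  have h1 : cp N (fun m n => Vis C (s * n) (s * m)) ≤ cp N (fun m n =>
      ((∃ c, c ∉ G ∧ Vis C (s * m) c ∧ ¬ Vis C (s * n) c ∧ Vis C (s * n) (C c)) ∨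
      (Vis C (s * n) (s * m) ∧ s * (m : ℤ) ∉ G)) ∨ (s * (m : ℤ) ∈ G)) := by
    refine cp_mono fun m n _ _ _ _ h => ?_
    by_cases hm : s * (m : ℤ) ∈ G
    · exact Or.inr hm
    · exact Or.inl (Or.inr ⟨h, hm⟩)
  refine h1.trans ((cp_or _ _).trans ?_)
  rw [cp_left N (fun m => s * (m : ℤ) ∈ G)]
  have h2 : ct N (fun m => s * (m : ℤ) ∈ G) ≤ G.card := by
    unfold ct
    have h3 : ((fn N (fun m : ℕ => s * (m : ℤ) ∈ G)).image
        (fun m : ℕ => s * (m : ℤ))) ⊆ G := by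
      intro x hx
      rw [Finset.mem_image] at hx
      obtain ⟨m, hm, rfl⟩ := hx
      exact (mem_fn.1 hm).2
    have h4 := Finset.card_le_card h3
    rw [Finset.card_image_of_injective] at h4
    · exact_mod_cast h4
    · intro a b hab
      have hab' : s * (a : ℤ) = s * (b : ℤ) := hab
      rcases hs with rfl | rfl <;> omega
  have h5 : (G.card : ℝ) ≤ ε / 2 * N := by
    have h6 : 2 * (G.card : ℝ) / ε ≤ N := by
      refine hN₀.trans ?_
      exact_mod_cast (le_max_left _ _).trans hN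
    rw [div_le_iff₀ hε] at h6
    linarith
  have h7 := hG N
  have h8 := mul_le_mul_of_nonneg_right (h2.trans h5) hNR.le
  nlinarith

end Pool.Agent.U457.GN
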