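import Mathlib

/-!
Terms of trajectories of a map: last private terms of a family of trajectories, and the finiteness
lemma for merging points. Author: helper457.
-/

set_option autoImplicit false

namespace Pool.Agent.U457.GN

variable {X : Type*} (f : X → X)

/-- `a` is a term of the trajectory of `x`. -/
def Vis (x a : X) : Prop := ∃ t : ℕ, f^[t] x = a

/-- `b i` is the last term of the trajectory of `y i` that is not a term of another one. -/
def Gen {r : ℕ} (y b : Fin r → X) : Prop :=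
  ∀ i, Vis f (y i) (b i) ∧ (∀ j, j ≠ i → ¬ Vis f (y j) (b i)) ∧ ∃ j, j ≠ i ∧ Vis f (y j) (f (b i))

/-- `a` lies on a cycle. -/
def Cyc (a : X) : Prop := ∃ p : ℕ, 0 < p ∧ f^[p] a = a

variable {f}

theorem vis_refl (x : X) : Vis f x x := ⟨0, rfl⟩

theorem vis_iter (x : X) (t : ℕ) : Vis f x (f^[t] x) := ⟨t, rfl⟩

theorem vis_trans {x y z : X} (h : Vis f x y) (h' : Vis f y z) : Vis f x z := by
  obtain ⟨t, rfl⟩ := h
  obtain ⟨u, rfl⟩ := h'
  exact ⟨u + t, by rw [Function.iterate_add_apply]⟩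

theorem vis_step (x : X) : Vis f x (f x) := ⟨1, rfl⟩

theorem vis_of_le {x : X} {t u : ℕ} (h : t ≤ u) : Vis f (f^[t] x) (f^[u] x) := by
  obtain ⟨d, rfl⟩ := Nat.exists_eq_add_of_le' h
  exact ⟨d, by rw [Function.iterate_add_apply]⟩

theorem vis_total {x a b : X} (ha : Vis f x a) (hb : Vis f x b) : Vis f a b ∨ Vis f b a := by
  obtain ⟨t, rfl⟩ := ha
  obtain ⟨u, rfl⟩ := hb
  rcases le_total t u with h | h
  · exact Or.inl (vis_of_le h)
  · exact Or.inr (vis_of_le h)

theorem vis_cases {a b : X} (h : Vis f a b) : a = b ∨ Vis f (f a) b := by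
  obtain ⟨t, ht⟩ := h
  cases t with
  | zero => exact Or.inl ht
  | succ t => exact Or.inr ⟨t, by rw [← ht, Function.iterate_succ_apply]⟩

theorem gen_iff {r : ℕ} {y b : Fin r → X} (hb : Gen f b b) :
    Gen f y b ↔ ∀ i, Vis f (y i) (b i) := by
  constructor
  · intro h i; exact (h i).1
  · intro h i
    refine ⟨h i, fun j hj hv => ?_, ?_⟩
    · rcases vis_total hv (h j) with h1 | h1
      · exact (hb j).2.1 i (Ne.symm hj) h1
      · exact (hb i).2.1 j hj h1
    · obtain ⟨j, hj, hv⟩ := (hb i).2.2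
      exact ⟨j, hj, vis_trans (h j) hv⟩

theorem gen_self {r : ℕ} {y b : Fin r → X} (h : Gen f y b) : Gen f b b := by
  intro i
  refine ⟨vis_refl _, fun j hj hv => (h i).2.1 j hj (vis_trans (h j).1 hv), ?_⟩
  obtain ⟨j, hj, hv⟩ := (h i).2.2
  refine ⟨j, hj, ?_⟩
  rcases vis_total (h j).1 hv with h1 | h1
  · exact h1
  · exact absurd (vis_trans (h i).1 (vis_trans (vis_step _) h1)) ((h j).2.1 i (Ne.symm hj))

theorem gen_unique {r : ℕ} {y b b' : Fin r → X} (h : Gen f y b) (h' : Gen f y b') : b = b' := by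
  have key : ∀ {b b' : Fin r → X}, Gen f y b → Gen f y b' → ∀ i, ∀ t t' : ℕ, f^[t] (y i) = b i →
      f^[t'] (y i) = b' i → ¬ t < t' := by
    intro b b' h h' i t t' ht ht' hlt
    obtain ⟨j, hj, hv⟩ := (h i).2.2
    apply (h' i).2.1 j hj
    refine vis_trans hv ?_
    rw [← ht, ← ht', ← Function.iterate_succ_apply' f t (y i)]
    exact vis_of_le hlt
  funext i
  obtain ⟨t, ht⟩ := (h i).1
  obtain ⟨t', ht'⟩ := (h' i).1
  have h1 := key h h' i t t' ht ht'
  have h2 := key h' h i t' t ht' ht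
  have : t = t' := by omega
  subst this
  rw [← ht, ← ht']

/-- an element that is not cyclic is visited at one time only -/
theorem time_unique {b : X} (hb : ¬ Cyc f b) {x : X} {t u : ℕ} (ht : f^[t] x = b) (hu : f^[u] x = b) :
    t = u := by
  by_contra hne
  rcases Nat.lt_or_gt_of_ne hne with h | h
  · apply hb
    refine ⟨u - t, by omega, ?_⟩
    rw [← ht, ← Function.iterate_add_apply, Nat.sub_add_cancel h.le, hu, ht]
  · apply hb
    refine ⟨t - u, by omega, ?_⟩
    rw [← hu, ← Function.iterate_add_apply, Nat.sub_add_cancel h.le, ht, hu]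

/-- the trajectories of `x` and `x'` have a common term, which both reach before they take a value of
height smaller than `Y` -/
def MeetAbove (f : X → X) (h : X → ℝ) (Y : ℝ) (x x' : X) : Prop :=
  ∃ k k' : ℕ, f^[k] x = f^[k'] x' ∧ (∀ j ≤ k, Y ≤ h (f^[j] x)) ∧ ∀ j ≤ k', Y ≤ h (f^[j] x')

/-- below an element that is not cyclic -/
theorem root_noncyc {h : X → ℝ} (hfin : ∀ Y : ℝ, {v | h v < Y}.Finite) (Y : ℝ) {b : X}
    (hb : ¬ Cyc f b) : ∃ P : Set X, P.Finite ∧ ∀ x a : X, Vis f a b → a ∉ P →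
      ∀ k, f^[k] x = a → ∀ j ≤ k, Y ≤ h (f^[j] x) := by
  classical
  let V : Set X := {v | h v < Y ∧ Vis f v b}
  have hV : V.Finite := (hfin Y).subset fun v hv => hv.1
  let t : X → ℕ := fun v => if hv : Vis f v b then hv.choose else 0
  have ht : ∀ v, Vis f v b → f^[t v] v = b := by
    intro v hv
    simp only [t, dif_pos hv]
    exact hv.choose_spec
  refine ⟨⋃ v ∈ V, (fun i => f^[i] v) '' (Finset.range (t v + 1) : Set ℕ),
    hV.biUnion fun v _ => (Finset.finite_toSet _).image _, ?_⟩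
  intro x a hab haP k hk j hj
  by_contra hlt
  push Not at hlt
  apply haP
  obtain ⟨m, hm⟩ := hab
  have hv : f^[m + (k - j)] (f^[j] x) = b := by
    rw [← Function.iterate_add_apply]
    have : m + (k - j) + j = m + k := by omega
    rw [this, Function.iterate_add_apply, hk, hm]
  have hvis : Vis f (f^[j] x) b := ⟨_, hv⟩
  have htm := time_unique hb hv (ht _ hvis)
  simp only [Set.mem_iUnion]
  refine ⟨f^[j] x, ⟨hlt, hvis⟩, k - j, ?_, ?_⟩
  · rw [Finset.mem_coe, Finset.mem_range]; omega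
  · show f^[k - j] (f^[j] x) = a
    rw [← Function.iterate_add_apply, Nat.sub_add_cancel hj, hk]

/-- the terms of the trajectory of a cyclic element are finite in number -/
theorem cyc_finite {w : X} (hw : Cyc f w) : {z | Vis f w z}.Finite := by
  obtain ⟨p, hp, hw⟩ := hw
  apply ((Finset.finite_toSet (Finset.range p)).image (fun i => f^[i] w)).subset
  rintro z ⟨t, rfl⟩
  refine ⟨t % p, ?_, ?_⟩
  · rw [Finset.mem_coe, Finset.mem_range]; exact Nat.mod_lt _ hp
  · exact Function.IsPeriodicPt.iterate_mod_apply (f := f) (n := p) hw t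

/-- entering the set of the terms of a trajectory -/
theorem entry {a w : X} (haw : Vis f a w) (hna : ¬ Vis f w a) :
    ∃ b, Vis f a b ∧ ¬ Vis f w b ∧ Vis f w (f b) := by
  classical
  have hex : ∃ t, Vis f w (f^[t] a) := by
    obtain ⟨t, ht⟩ := haw
    exact ⟨t, by rw [ht]; exact vis_refl _⟩
  have h1 := Nat.find_spec hex
  have h2 : ∀ m < Nat.find hex, ¬ Vis f w (f^[m] a) := fun m hm => Nat.find_min hex hm
  rcases Nat.eq_zero_or_pos (Nat.find hex) with h0 | h0
  · rw [h0] at h1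
    exact absurd h1 hna
  · refine ⟨f^[Nat.find hex - 1] a, vis_iter _ _, h2 _ (by omega), ?_⟩
    rw [← Function.iterate_succ_apply' f]
    have : (Nat.find hex - 1).succ = Nat.find hex := by omega
    rw [this]
    exact h1

/-- merging above a common term -/
theorem root_any {h : X → ℝ} (hfin : ∀ Y : ℝ, {v | h v < Y}.Finite)
    (hf : ∀ S : Set X, S.Finite → (f ⁻¹' S).Finite) (Y : ℝ) (w : X) :
    ∃ P : Set X, P.Finite ∧ ∀ x x' a : X, Vis f x a → Vis f x' a → Vis f a w → a ∉ P →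
      MeetAbove f h Y x x' := by
  classical
  have fin : ∀ b : X, ¬ Cyc f b → ∃ P : Set X, P.Finite ∧ ∀ x x' a : X, Vis f x a → Vis f x' a →
      Vis f a b → a ∉ P → MeetAbove f h Y x x' := by
    intro b hb
    obtain ⟨P, hP, hx⟩ := root_noncyc hfin Y hb
    refine ⟨P, hP, ?_⟩
    rintro x x' a ⟨k, hk⟩ ⟨k', hk'⟩ hab haP
    exact ⟨k, k', hk.trans hk'.symm, hx x a hab haP k hk, hx x' a hab haP k' hk'⟩
  by_cases hw : Cyc f w
  · have hZ := cyc_finite hw
    have hE := hf _ hZ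
    choose! P hP hP' using fin
    refine ⟨{z | Vis f w z} ∪ ⋃ b ∈ {b | b ∈ f ⁻¹' {z | Vis f w z} ∧ ¬ Cyc f b}, P b,
      hZ.union ((hE.subset fun b hb => hb.1).biUnion fun b hb => hP b hb.2), ?_⟩
    intro x x' a hxa hxa' haw haP
    rw [Set.mem_union, not_or] at haP
    obtain ⟨b, hab, hb1, hb2⟩ := entry haw haP.1
    have hbc : ¬ Cyc f b := by
      rintro ⟨q, hq, hqb⟩
      apply hb1
      refine vis_trans hb2 ⟨q - 1, ?_⟩
      rw [← Function.iterate_succ_apply f, Nat.succ_eq_add_one, Nat.sub_add_cancel hq, hqb]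
    refine hP' b hbc x x' a hxa hxa' hab fun haPb => haP.2 ?_
    simp only [Set.mem_iUnion]
    exact ⟨b, ⟨hb2, hbc⟩, haPb⟩
  · exact fin w hw

/-- merging points of trajectories that meet a finite set -/
theorem merge_finite {h : X → ℝ} (hfin : ∀ Y : ℝ, {v | h v < Y}.Finite)
    (hf : ∀ S : Set X, S.Finite → (f ⁻¹' S).Finite) (Y : ℝ) {F : Set X} (hF : F.Finite) :
    ∃ P : Set X, P.Finite ∧ ∀ x x' a : X, (∃ u ∈ F, Vis f x u) → (∃ u ∈ F, Vis f x' u) →
      Vis f x a → Vis f x' a → (∀ w, Vis f x w → Vis f x' w → Vis f a w) → a ∉ P →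
      MeetAbove f h Y x x' := by
  classical
  have h2 : ∀ u u' : X, ∃ P : Set X, P.Finite ∧ ∀ x x' a : X, Vis f x u → Vis f x' u' →
      Vis f x a → Vis f x' a → (∀ w, Vis f x w → Vis f x' w → Vis f a w) → a ∉ P →
      MeetAbove f h Y x x' := by
    intro u u'
    by_cases hw : ∃ w, Vis f u w ∧ Vis f u' w
    · obtain ⟨w, hw1, hw2⟩ := hw
      obtain ⟨P, hP, hP'⟩ := root_any (f := f) hfin hf Y w
      refine ⟨P, hP, fun x x' a hu hu' hxa hxa' hcom haP => ?_⟩
      exact hP' x x' a hxa hxa' (hcom w (vis_trans hu hw1) (vis_trans hu' hw2)) haP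
    · refine ⟨∅, Set.finite_empty, fun x x' a hu hu' hxa hxa' _ _ => ?_⟩
      exfalso
      apply hw
      obtain ⟨t, rfl⟩ := hu
      obtain ⟨t', rfl⟩ := hu'
      obtain ⟨i, hi⟩ := hxa
      obtain ⟨i', hi'⟩ := hxa'
      refine ⟨f^[t + t'] a, ?_, ?_⟩
      · rw [← hi, ← Function.iterate_add_apply]
        exact vis_of_le (by omega)
      · rw [← hi', ← Function.iterate_add_apply]
        exact vis_of_le (by omega)
  choose P hP hP' using h2
  refine ⟨⋃ u ∈ F, ⋃ u' ∈ F, P u u', hF.biUnion fun u _ => hF.biUnion fun u' _ => hP u u', ?_⟩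
  rintro x x' a ⟨u, huF, hu⟩ ⟨u', huF', hu'⟩ hxa hxa' hcom haP
  refine hP' u u' x x' a hu hu' hxa hxa' hcom fun ha => haP ?_
  simp only [Set.mem_iUnion]
  exact ⟨u, huF, u', huF', ha⟩

/-- the last private term of `x` relative to `x'` -/
theorem private_finite {h : X → ℝ} (hfin : ∀ Y : ℝ, {v | h v < Y}.Finite)
    (hf : ∀ S : Set X, S.Finite → (f ⁻¹' S).Finite) (Y : ℝ) {F : Set X} (hF : F.Finite) :
    ∃ G : Set X, G.Finite ∧ ∀ x x' : X, (∃ u ∈ F, Vis f x u) → (∃ u ∈ F, Vis f x' u) →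
      ((∀ c : X, Vis f x c → ¬ Vis f x' c → Vis f x' (f c) → c ∉ G → MeetAbove f h Y x x') ∧
      (Vis f x' x → x ∉ G → MeetAbove f h Y x x')) := by
  obtain ⟨P, hP, hP'⟩ := merge_finite (f := f) hfin hf Y hF
  refine ⟨f ⁻¹' P ∪ P, (hf P hP).union hP, fun x x' hx hx' => ⟨?_, ?_⟩⟩
  · intro c hc hnc hfc hcG
    rw [Set.mem_union, not_or] at hcG
    refine hP' x x' (f c) hx hx' (vis_trans hc (vis_step c)) hfc ?_ hcG.1
    intro w hw hw'
    rcases vis_total hc hw with h1 | h1
    · rcases vis_cases h1 with h2 | h2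
      · exact absurd (h2 ▸ hw') hnc
      · exact h2
    · exact absurd (vis_trans hw' h1) hnc
  · intro hv hxG
    rw [Set.mem_union, not_or] at hxG
    exact hP' x x' x hx hx' (vis_refl x) hv (fun w hw _ => hw) hxG.2

/-- two trajectories with a common term, neither of which contains the other -/
theorem gen_exists {y : Fin 2 → X} {w : X} (h0 : Vis f (y 0) w) (h1 : Vis f (y 1) w)
    (h01 : ¬ Vis f (y 0) (y 1)) (h10 : ¬ Vis f (y 1) (y 0)) : ∃ b, Gen f y b := by
  classical
  have key : ∀ u v : X, Vis f u w → Vis f v w → ¬ Vis f v u →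
      ∃ c, Vis f u c ∧ ¬ Vis f v c ∧ Vis f v (f c) := by
    intro u v hu hv hvu
    have hex : ∃ t, Vis f v (f^[t] u) := by
      obtain ⟨t, ht⟩ := hu
      exact ⟨t, by rw [ht]; exact hv⟩
    have e1 := Nat.find_spec hex
    have e2 : ∀ m < Nat.find hex, ¬ Vis f v (f^[m] u) := fun m hm => Nat.find_min hex hm
    rcases Nat.eq_zero_or_pos (Nat.find hex) with h | h
    · rw [h] at e1
      exact absurd e1 hvu
    · refine ⟨f^[Nat.find hex - 1] u, vis_iter _ _, e2 _ (by omega), ?_⟩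
      rw [← Function.iterate_succ_apply' f]
      have : (Nat.find hex - 1).succ = Nat.find hex := by omega
      rw [this]
      exact e1
  obtain ⟨c, hc1, hc2, hc3⟩ := key _ _ h0 h1 h10
  obtain ⟨d, hd1, hd2, hd3⟩ := key _ _ h1 h0 h01
  refine ⟨![c, d], fun i => ?_⟩
  fin_cases i
  · refine ⟨hc1, fun j hj => ?_, 1, by decide, hc3⟩
    fin_cases j
    · exact absurd rfl hj
    · exact hc2
  · refine ⟨hd1, fun j hj => ?_, 0, by decide, hd3⟩
    fin_cases j
    · exact hd2
    · exact absurd rfl hj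

end Pool.Agent.U457.GN
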