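import Pool.Agent.U457.GN.Core

/-!
Counting tuples of positive integers. Author: helper457.
-/

set_option autoImplicit false

namespace Pool.Agent.U457.GN

open Filter Topology Finset

open scoped Classical in
/-- the set of the `x` in `[1, N]^r` with the property `P` -/
noncomputable def fs (r N : ℕ) (P : (Fin r → ℕ) → Prop) : Finset (Fin r → ℕ) :=
  (Fintype.piFinset (fun _ : Fin r => Finset.Icc 1 N)).filter P

theorem mem_fs {r N : ℕ} {P : (Fin r → ℕ) → Prop} {x : Fin r → ℕ} :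
    x ∈ fs r N P ↔ (∀ i, 1 ≤ x i ∧ x i ≤ N) ∧ P x := by
  unfold fs
  simp only [Finset.mem_filter, Fintype.mem_piFinset, Finset.mem_Icc]

/-- the number of `x` in `[1, N]^r` with the property `P` -/
noncomputable def cnt (r N : ℕ) (P : (Fin r → ℕ) → Prop) : ℝ := ((fs r N P).card : ℝ)

theorem ncard_eq (r N : ℕ) (P : (Fin r → ℕ) → Prop) :
    (Set.ncard {x : Fin r → ℕ | (∀ i, 1 ≤ x i ∧ x i ≤ N) ∧ P x} : ℝ) = cnt r N P := by
  unfold cnt
  rw [← Set.ncard_coe_finset]
  congr 2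
  ext x
  rw [Finset.mem_coe, mem_fs]
  rfl

theorem cnt_nonneg (r N : ℕ) (P : (Fin r → ℕ) → Prop) : 0 ≤ cnt r N P := by
  unfold cnt; positivity

theorem cnt_mono {r N : ℕ} {P Q : (Fin r → ℕ) → Prop}
    (h : ∀ x, (∀ i, 1 ≤ x i ∧ x i ≤ N) → P x → Q x) : cnt r N P ≤ cnt r N Q := by
  unfold cnt
  have : fs r N P ⊆ fs r N Q := by
    intro x hx
    rw [mem_fs] at hx ⊢
    exact ⟨hx.1, h x hx.1 hx.2⟩
  exact_mod_cast Finset.card_le_card this

theorem cnt_congr {r N : ℕ} {P Q : (Fin r → ℕ) → Prop}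
    (h : ∀ x, (∀ i, 1 ≤ x i ∧ x i ≤ N) → (P x ↔ Q x)) : cnt r N P = cnt r N Q :=
  le_antisymm (cnt_mono fun x hx => (h x hx).1) (cnt_mono fun x hx => (h x hx).2)

theorem cnt_true (r N : ℕ) : cnt r N (fun _ => True) = (N : ℝ) ^ r := by
  have : fs r N (fun _ => True) = Fintype.piFinset (fun _ : Fin r => Finset.Icc 1 N) := by
    ext x
    rw [mem_fs]
    simp [Fintype.mem_piFinset, Finset.mem_Icc]
  unfold cnt
  rw [this, Fintype.card_piFinset]
  simp

theorem cnt_le (r N : ℕ) (P : (Fin r → ℕ) → Prop) : cnt r N P ≤ (N : ℝ) ^ r := by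
  rw [← cnt_true]
  exact cnt_mono fun _ _ _ => trivial

theorem cnt_or {r N : ℕ} (P Q : (Fin r → ℕ) → Prop) :
    cnt r N (fun x => P x ∨ Q x) ≤ cnt r N P + cnt r N Q := by
  classical
  have : fs r N (fun x => P x ∨ Q x) = fs r N P ∪ fs r N Q := by
    ext x
    rw [Finset.mem_union, mem_fs, mem_fs, mem_fs]
    tauto
  unfold cnt
  rw [this]
  exact_mod_cast Finset.card_union_le _ _

theorem cnt_exists {ι : Type*} {r N : ℕ} (I : Finset ι) (P : ι → (Fin r → ℕ) → Prop) :
    cnt r N (fun x => ∃ i ∈ I, P i x) ≤ ∑ i ∈ I, cnt r N (P i) := by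
  classical
  induction I using Finset.induction_on with
  | empty =>
    rw [Finset.sum_empty]
    have : fs r N (fun x => ∃ i ∈ (∅ : Finset ι), P i x) = ∅ := by
      ext x
      rw [mem_fs]
      simp
    unfold cnt
    rw [this]
    simp
  | insert a I ha ih =>
    rw [Finset.sum_insert ha]
    refine le_trans (cnt_mono (Q := fun x => P a x ∨ ∃ i ∈ I, P i x) ?_) ((cnt_or _ _).trans
      (add_le_add le_rfl ih))
    rintro x _ ⟨i, hi, hx⟩
    rcases Finset.mem_insert.1 hi with rfl | h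
    · exact Or.inl hx
    · exact Or.inr ⟨i, h, hx⟩

theorem cnt_disj {ι : Type*} {r N : ℕ} (I : Finset ι) (P : ι → (Fin r → ℕ) → Prop)
    (h : ∀ x i j, P i x → P j x → i = j) :
    cnt r N (fun x => ∃ i ∈ I, P i x) = ∑ i ∈ I, cnt r N (P i) := by
  classical
  unfold cnt
  rw [← Nat.cast_sum, ← Finset.card_biUnion]
  · congr 2
    ext x
    simp only [mem_fs, Finset.mem_biUnion]
    constructor
    · rintro ⟨h1, i, hi, h2⟩
      exact ⟨i, hi, h1, h2⟩
    · rintro ⟨i, hi, h1, h2⟩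
      exact ⟨h1, i, hi, h2⟩
  · intro i _ j _ hij
    rw [Function.onFun, Finset.disjoint_left]
    intro x hx hx'
    rw [mem_fs] at hx hx'
    exact hij (h x i j hx.2 hx'.2)

/-- a disjoint splitting -/
theorem cnt_add {r N : ℕ} {P Q : (Fin r → ℕ) → Prop} (h : ∀ x, P x → ¬ Q x) :
    cnt r N (fun x => P x ∨ Q x) = cnt r N P + cnt r N Q := by
  classical
  have : fs r N (fun x => P x ∨ Q x) = fs r N P ∪ fs r N Q := by
    ext x
    rw [Finset.mem_union, mem_fs, mem_fs, mem_fs]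
    tauto
  unfold cnt
  rw [this, Finset.card_union_of_disjoint]
  · push_cast; rfl
  · rw [Finset.disjoint_left]
    intro x hx hx'
    rw [mem_fs] at hx hx'
    exact h x hx.2 hx'.2

open scoped Classical in
/-- the set of the `n ≤ N` with the property `P` -/
noncomputable def fn (N : ℕ) (P : ℕ → Prop) : Finset ℕ := (Finset.Icc 1 N).filter P

theorem mem_fn {N : ℕ} {P : ℕ → Prop} {n : ℕ} : n ∈ fn N P ↔ (1 ≤ n ∧ n ≤ N) ∧ P n := by
  unfold fn
  simp only [Finset.mem_filter, Finset.mem_Icc]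

/-- the number of the `n ≤ N` with the property `P` -/
noncomputable def ct (N : ℕ) (P : ℕ → Prop) : ℝ := ((fn N P).card : ℝ)

theorem ct_ncard (N : ℕ) (P : ℕ → Prop) :
    (Set.ncard {n : ℕ | 1 ≤ n ∧ n ≤ N ∧ P n} : ℝ) = ct N P := by
  unfold ct
  rw [← Set.ncard_coe_finset]
  congr 2
  ext x
  rw [Finset.mem_coe, mem_fn]
  simp only [Set.mem_ofPred_eq, and_assoc]

theorem cnt_prod (r N : ℕ) (E : Fin r → ℕ → Prop) :
    cnt r N (fun x => ∀ i, E i (x i)) = ∏ i, ct N (E i) := by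
  classical
  unfold cnt ct
  rw [← Nat.cast_prod, ← Fintype.card_piFinset]
  congr 2
  ext x
  simp only [mem_fs, mem_fn, Fintype.mem_piFinset]
  constructor
  · rintro ⟨h1, h2⟩ i
    exact ⟨h1 i, h2 i⟩
  · intro h
    exact ⟨fun i => (h i).1, fun i => (h i).2⟩

open scoped Classical in
/-- the set of the pairs in `[1, N]^2` with the property `Q` -/
noncomputable def fp (N : ℕ) (Q : ℕ → ℕ → Prop) : Finset (ℕ × ℕ) :=
  (Finset.Icc 1 N ×ˢ Finset.Icc 1 N).filter (fun p => Q p.1 p.2)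

theorem mem_fp {N : ℕ} {Q : ℕ → ℕ → Prop} {p : ℕ × ℕ} :
    p ∈ fp N Q ↔ ((1 ≤ p.1 ∧ p.1 ≤ N) ∧ (1 ≤ p.2 ∧ p.2 ≤ N)) ∧ Q p.1 p.2 := by
  unfold fp
  simp only [Finset.mem_filter, Finset.mem_product, Finset.mem_Icc]

/-- the number of the pairs in `[1, N]^2` with the property `Q` -/
noncomputable def cp (N : ℕ) (Q : ℕ → ℕ → Prop) : ℝ := ((fp N Q).card : ℝ)

theorem cnt_pair {r N : ℕ} {i j : Fin r} (hij : i ≠ j) (Q : ℕ → ℕ → Prop) :
    cnt r N (fun x => Q (x i) (x j)) * (N : ℝ) ^ 2 ≤ cp N Q * (N : ℝ) ^ r := by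
  classical
  have h1 : (fs r N (fun x => Q (x i) (x j))).card ≤ ∑ q ∈ fp N Q, ∏ k : Fin r, (if k = i then 1 else if k = j then 1 else N) := by
    refine le_trans (Finset.card_le_card ?_) (Finset.card_biUnion_le.trans (le_of_eq ?_))
      (b := ((fp N Q).biUnion fun q =>
        Fintype.piFinset (fun k : Fin r => if k = i then {q.1} else if k = j then {q.2}
          else Finset.Icc 1 N)).card)
    · intro x hx
      rw [mem_fs] at hx
      rw [Finset.mem_biUnion]
      refine ⟨(x i, x j), ?_, ?_⟩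
      · rw [mem_fp]
        exact ⟨⟨hx.1 i, hx.1 j⟩, hx.2⟩
      · rw [Fintype.mem_piFinset]
        intro k
        by_cases hk : k = i
        · subst hk; simp
        · by_cases hk' : k = j
          · subst hk'
            rw [if_neg hk, if_pos rfl]; simp
          · rw [if_neg hk, if_neg hk', Finset.mem_Icc]; exact hx.1 k
    · apply Finset.sum_congr rfl
      intro q _
      rw [Fintype.card_piFinset]
      apply Finset.prod_congr rfl
      intro k _
      by_cases hk : k = i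
      · rw [if_pos hk, if_pos hk]; simp
      · by_cases hk' : k = j
        · rw [if_neg hk, if_pos hk', if_neg hk, if_pos hk']; simp
        · rw [if_neg hk, if_neg hk', if_neg hk, if_neg hk']; simp
  rw [Finset.sum_const, smul_eq_mul] at h1
  have h2 : (∏ k : Fin r, (if k = i then 1 else if k = j then 1 else N)) * N ^ 2 = N ^ r := by
    have e : N ^ 2 = ∏ k : Fin r, ((if k = i then N else 1) * (if k = j then N else 1)) := by
      rw [Finset.prod_mul_distrib, Finset.prod_ite_eq', Finset.prod_ite_eq']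
      simp [pow_two]
    rw [e, ← Finset.prod_mul_distrib]
    rw [show N ^ r = ∏ _k : Fin r, N by simp]
    apply Finset.prod_congr rfl
    intro k _
    by_cases hk : k = i
    · have hk' : k ≠ j := fun h => hij (hk.symm.trans h)
      simp [hk, hij]
    · by_cases hk' : k = j
      · simp [hk', Ne.symm hij]
      · simp [hk, hk']
  unfold cnt cp
  have h3 := Nat.mul_le_mul_right (N ^ 2) h1
  rw [mul_assoc, h2] at h3
  exact_mod_cast h3

/-- density -/
def Dens (P : ℕ → Prop) (l : ℝ) : Prop := Tendsto (fun N : ℕ => ct N P / N) atTop (𝓝 l)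

theorem ct_nonneg (N : ℕ) (P : ℕ → Prop) : 0 ≤ ct N P := by unfold ct; positivity

theorem Dens.nonneg {P : ℕ → Prop} {l : ℝ} (h : Dens P l) : 0 ≤ l :=
  ge_of_tendsto' h fun _ => div_nonneg (ct_nonneg _ _) (Nat.cast_nonneg _)

theorem prod_tendsto {r : ℕ} {E : Fin r → ℕ → Prop} {l : Fin r → ℝ} (h : ∀ i, Dens (E i) (l i)) :
    Tendsto (fun N : ℕ => cnt r N (fun x => ∀ i, E i (x i)) / (N : ℝ) ^ r) atTop
      (𝓝 (∏ i, l i)) := by
  have h1 := tendsto_finsetProd (Finset.univ : Finset (Fin r)) (fun i _ => h i)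
  refine h1.congr fun N => ?_
  rw [cnt_prod, Finset.prod_div_distrib]
  simp

end Pool.Agent.U457.GN
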