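import Pool.Agent.U457.GN.Pairs

/-!
The Collatz map on the integers: the known cycles, and the densities of the sets of the integers
whose trajectory contains a given integer. Author: helper457.
-/

set_option autoImplicit false

namespace Pool.Agent.U457.GN

open Filter Topology

/-! ### signs -/

theorem C_sign {s : ℤ} (hs : s = 1 ∨ s = -1) {x : ℤ} (h : 0 < s * x) : 0 < s * C x := by
  unfold C
  rcases hs with rfl | rfl
  · split_ifs <;> omega
  · split_ifs <;> omega

theorem iter_sign {s : ℤ} (hs : s = 1 ∨ s = -1) {x : ℤ} (h : 0 < s * x) (t : ℕ) :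
    0 < s * C^[t] x := by
  induction t with
  | zero => exact h
  | succ t ih => rw [Function.iterate_succ_apply']; exact C_sign hs ih

theorem start_sign {s : ℤ} (hs : s = 1 ∨ s = -1) {n : ℕ} (hn : 1 ≤ n) : 0 < s * (s * (n : ℤ)) := by
  rcases hs with rfl | rfl <;> omega

theorem vis_sign {s : ℤ} (hs : s = 1 ∨ s = -1) {n : ℕ} (hn : 1 ≤ n) {b : ℤ}
    (h : Vis C (s * n) b) : 0 < s * b := by
  obtain ⟨t, rfl⟩ := h
  exact iter_sign hs (start_sign hs hn) t

/-! ### multiples of three -/

theorem vis_three {b : ℤ} (hb : (3 : ℤ) ∣ b) {x : ℤ} (h : Vis C x b) : ∃ k : ℕ, x = 2 ^ k * b := by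
  obtain ⟨t, ht⟩ := h
  induction t generalizing b with
  | zero => exact ⟨0, by rw [pow_zero, one_mul]; exact ht⟩
  | succ t ih =>
    rw [Function.iterate_succ_apply'] at ht
    rcases pre_cases ht with h1 | ⟨h1, _⟩
    · obtain ⟨k, hk⟩ := ih (b := 2 * b) (Dvd.dvd.mul_left hb 2) h1
      exact ⟨k + 1, by rw [hk, pow_succ]; ring⟩
    · omega

theorem dens_three {s : ℤ} (hs : s = 1 ∨ s = -1) {b : ℤ} (hb : (3 : ℤ) ∣ b) (hb0 : 0 < s * b) :
    Dens (fun n => Vis C (s * n) b) 0 := by
  have hlog : Tendsto (fun N : ℕ => (Real.log N ^ 1 / (Real.log 2 * N + 0) + 1 / N)) atTop (𝓝 0) := by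
    have h1 := (Real.tendsto_pow_log_div_mul_add_atTop (Real.log 2) 0 1
      (Real.log_pos (by norm_num)).ne').comp tendsto_natCast_atTop_atTop
    have h2 : Tendsto (fun N : ℕ => 1 / (N : ℝ)) atTop (𝓝 0) := tendsto_one_div_atTop_nhds_zero_nat
    have h3 := h1.add h2
    rw [add_zero] at h3
    exact h3
  refine squeeze_zero' (Eventually.of_forall fun N => div_nonneg (ct_nonneg _ _)
    (Nat.cast_nonneg _)) ?_ hlog
  filter_upwards [eventually_ge_atTop 1] with N hN
  have hN0 : (0 : ℝ) < N := by exact_mod_cast hN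
  have h1 : ct N (fun n => Vis C (s * n) b) ≤ Nat.log 2 N + 1 := by
    unfold ct
    have h2 : fn N (fun n => Vis C (s * n) b) ⊆
        (Finset.range (Nat.log 2 N + 1)).image (fun k => 2 ^ k * b.natAbs) := by
      intro n hn
      rw [mem_fn] at hn
      obtain ⟨⟨hn1, hn2⟩, hv⟩ := hn
      obtain ⟨k, hk⟩ := vis_three hb hv
      have h3 : n = 2 ^ k * b.natAbs := by
        have h4 := congrArg Int.natAbs hk
        rw [Int.natAbs_mul, Int.natAbs_mul, Int.natAbs_pow] at h4
        have h5 : s.natAbs = 1 := by rcases hs with rfl | rfl <;> rfl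
        rw [h5, one_mul, Int.natAbs_natCast] at h4
        exact h4
      rw [Finset.mem_image]
      refine ⟨k, ?_, h3.symm⟩
      rw [Finset.mem_range, Nat.lt_succ_iff]
      apply Nat.le_log_of_pow_le (by norm_num)
      have hb1 : 1 ≤ b.natAbs := by
        rcases hs with rfl | rfl <;> omega
      calc 2 ^ k = 2 ^ k * 1 := (mul_one _).symm
        _ ≤ 2 ^ k * b.natAbs := Nat.mul_le_mul_left _ hb1
        _ = n := h3.symm
        _ ≤ N := hn2
    have h3 := (Finset.card_le_card h2).trans Finset.card_image_le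
    rw [Finset.card_range] at h3
    exact_mod_cast h3
  have h2 : (Nat.log 2 N : ℝ) ≤ Real.log N / Real.log 2 := by
    have := Real.natLog_le_logb N 2
    rw [Real.logb] at this
    exact_mod_cast this
  have hl2 : 0 < Real.log 2 := Real.log_pos (by norm_num)
  rw [pow_one, add_zero]
  calc ct N (fun n => Vis C (s * n) b) / N ≤ (Nat.log 2 N + 1) / N :=
        div_le_div_of_nonneg_right h1 hN0.le
    _ ≤ (Real.log N / Real.log 2 + 1) / N := by
        apply div_le_div_of_nonneg_right _ hN0.le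
        linarith
    _ = Real.log N / (Real.log 2 * N) + 1 / N := by
        field_simp

/-- the densities of the sets of the integers whose trajectory contains `b` -/
theorem dens_exists {s : ℤ} (hs : s = 1 ∨ s = -1) : ∃ D : ℤ → ℝ,
    (∀ b, Dens (fun n => Vis C (s * n) b) (D b)) ∧ (∀ b, 0 < D b ↔ 0 < s * b ∧ ¬ (3 : ℤ) ∣ b) ∧
    ∀ (b : ℤ) (x : ℝ) (m : ℕ) (α β : ℤ), 1 ≤ m → Dens (fun n => ∃ e o : ℕ,
      ((e + o : ℕ) : ℝ) ≤ Pool.Agent.Results.MP_d02c56_nt.HittingLaw.bound x n ∧
      Pool.Agent.Results.MP_d02c56_nt.HittingLaw.FirstHit {b} e o (s * n) ∧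
      (e : ℤ) ≡ α [ZMOD m] ∧ (o : ℤ) ≡ β [ZMOD m])
      (D b * Pool.Agent.Results.MP_d02c56_nt.HittingLaw.Phi x / m ^ 2) := by
  choose D hpos hdens hlaw using fun b : ℤ =>
    Pool.Agent.Results.MP_d02c56_nt.HittingLaw.result s hs {b}
  have hD : ∀ b, Dens (fun n => Vis C (s * n) b) (D b) := by
    intro b
    refine Tendsto.congr (fun N => ?_) (hdens b)
    rw [← ct_ncard]
    congr 3
    ext n
    simp only [Set.mem_ofPred_eq, Finset.mem_singleton]
    rfl
  refine ⟨D, hD, fun b => ⟨fun h => ?_, fun h => ?_⟩, fun b x m α β hm => ?_⟩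
  · by_contra hcon
    have h0 : Dens (fun n => Vis C (s * n) b) 0 := by
      by_cases hsb : 0 < s * b
      · have h3 : (3 : ℤ) ∣ b := by
          by_contra h3
          exact hcon ⟨hsb, h3⟩
        exact dens_three hs h3 hsb
      · have : ∀ N : ℕ, ct N (fun n => Vis C (s * n) b) / N = 0 := by
          intro N
          have h1 : fn N (fun n => Vis C (s * n) b) = ∅ := by
            ext n
            rw [mem_fn]
            constructor
            · rintro ⟨⟨h1, _⟩, hv⟩
              exact absurd (vis_sign hs h1 hv) hsb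
            · intro h
              exact absurd h (Finset.notMem_empty n)
          unfold ct
          rw [h1]
          simp
        unfold Dens
        simp only [this]
        exact tendsto_const_nhds
    have := tendsto_nhds_unique (hD b) h0
    linarith
  · exact hpos b ⟨b, Finset.mem_singleton_self b, h.1, h.2⟩
  · refine Tendsto.congr (fun N => ?_) (hlaw b x m α β hm)
    rw [← ct_ncard]

/-! ### the known cycles -/

/-- the union of the five known cycles -/
def Kn : Set ℤ := {1, 4, 2, -1, -2, -5, -14, -7, -20, -10, -17, -50, -25, -74, -37, -110, -55, -164,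
  -82, -41, -122, -61, -182, -91, -272, -136, -68, -34, 0}

theorem kn_cases {z : ℤ} (h : z ∈ Kn) : z = 0 ∨ (0 < z ∧ Mg z 1) ∨
    (z < 0 ∧ (Mg z (-1) ∨ Mg z (-5) ∨ Mg z (-17))) := by
  have key : ∀ (z c : ℤ), (∃ k ∈ Finset.range 18, C^[k] z = c) → Mg z c := by
    rintro z c ⟨k, _, hk⟩
    exact ⟨k, 0, hk⟩
  simp only [Kn, Set.mem_insert_iff, Set.mem_singleton_iff] at h
  rcases h with rfl | rfl | rfl | rfl | rfl | rfl | rfl | rfl | rfl | rfl | rfl | rfl | rfl | rfl |
    rfl | rfl | rfl | rfl | rfl | rfl | rfl | rfl | rfl | rfl | rfl | rfl | rfl | rfl | rfl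
  · exact Or.inr (Or.inl ⟨by decide, key _ _ (by decide)⟩)
  · exact Or.inr (Or.inl ⟨by decide, key _ _ (by decide)⟩)
  · exact Or.inr (Or.inl ⟨by decide, key _ _ (by decide)⟩)
  · exact Or.inr (Or.inr ⟨by decide, Or.inl (key _ _ (by decide))⟩)
  · exact Or.inr (Or.inr ⟨by decide, Or.inl (key _ _ (by decide))⟩)
  iterate 5 exact Or.inr (Or.inr ⟨by decide, Or.inr (Or.inl (key _ _ (by decide)))⟩)
  iterate 18 exact Or.inr (Or.inr ⟨by decide, Or.inr (Or.inr (key _ _ (by decide)))⟩)
  · exact Or.inl rfl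

theorem kn_closed {z : ℤ} (h : z ∈ Kn) : C z ∈ Kn := by
  simp only [Kn, Set.mem_insert_iff, Set.mem_singleton_iff] at h ⊢
  rcases h with rfl | rfl | rfl | rfl | rfl | rfl | rfl | rfl | rfl | rfl | rfl | rfl | rfl | rfl |
    rfl | rfl | rfl | rfl | rfl | rfl | rfl | rfl | rfl | rfl | rfl | rfl | rfl | rfl | rfl <;> decide

theorem kn_iter {z : ℤ} (h : z ∈ Kn) (k : ℕ) : C^[k] z ∈ Kn := by
  induction k with
  | zero => exact h
  | succ k ih => rw [Function.iterate_succ_apply']; exact kn_closed ih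

theorem reach_of_mg {a z : ℤ} (hz : z ∈ Kn) (h : Mg a z) : ∃ k, C^[k] a ∈ Kn := by
  obtain ⟨i, j, h⟩ := h
  exact ⟨i, by rw [h]; exact kn_iter hz j⟩

theorem iter_in {S : Finset ℤ} (hS : ∀ z ∈ S, C z ∈ S) {a : ℤ} (ha : a ∈ S) (k : ℕ) :
    C^[k] a ∈ S := by
  induction k with
  | zero => exact ha
  | succ k ih => rw [Function.iterate_succ_apply']; exact hS _ ih

def S1 : Finset ℤ := {-1, -2}
def S2 : Finset ℤ := {-5, -14, -7, -20, -10}
def S3 : Finset ℤ := {-17, -50, -25, -74, -37, -110, -55, -164, -82, -41, -122, -61, -182, -91, -272,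
  -136, -68, -34}

theorem not_mg {S S' : Finset ℤ} (hS : ∀ z ∈ S, C z ∈ S) (hS' : ∀ z ∈ S', C z ∈ S')
    (hd : ∀ z ∈ S, z ∉ S') {a b : ℤ} (ha : a ∈ S) (hb : b ∈ S') : ¬ Mg a b := by
  rintro ⟨i, j, h⟩
  apply hd _ (iter_in hS ha i)
  rw [h]
  exact iter_in hS' hb j

theorem n12 : ¬ Mg (-1) (-5) := not_mg (S := S1) (S' := S2) (by decide) (by decide) (by decide)
  (by decide) (by decide)

theorem n13 : ¬ Mg (-1) (-17) := not_mg (S := S1) (S' := S3) (by decide) (by decide) (by decide)
  (by decide) (by decide)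

theorem n23 : ¬ Mg (-5) (-17) := not_mg (S := S2) (S' := S3) (by decide) (by decide) (by decide)
  (by decide) (by decide)

/-- `Q1` and the merging of random integers -/
theorem q1_iff : (∀ x : ℤ, ∃ k, C^[k] x ∈ Kn) ↔
    Tendsto (fun N : ℕ => cnt 2 N (fun x => Mg (x 0) (x 1)) / (N : ℝ) ^ 2) atTop (𝓝 1) ∧
    Tendsto (fun N : ℕ => cnt 4 N (fun x => ∃ i j, i ≠ j ∧ Mg (-(x i : ℤ)) (-(x j : ℤ)))
      / (N : ℝ) ^ 4) atTop (𝓝 1) := by
  constructor
  · intro h
    have full : ∀ (r : ℕ) (P : (Fin r → ℕ) → Prop), (∀ x : Fin r → ℕ, (∀ i, 1 ≤ x i) → P x) →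
        Tendsto (fun N : ℕ => cnt r N P / (N : ℝ) ^ r) atTop (𝓝 1) := by
      intro r P hP
      refine tendsto_const_nhds.congr' ?_
      filter_upwards [eventually_ge_atTop 1] with N hN
      have hN0 : (0 : ℝ) < N := by exact_mod_cast hN
      have h1 : cnt r N P = (N : ℝ) ^ r := by
        refine le_antisymm (cnt_le _ _ _) ?_
        rw [← cnt_true]
        exact cnt_mono fun x hx _ => hP x fun i => (hx i).1
      rw [h1, div_self (by positivity)]
    have hpos : ∀ n : ℕ, 1 ≤ n → Mg (n : ℤ) 1 := by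
      intro n hn
      obtain ⟨k, hk⟩ := h n
      have h1 := iter_sign (s := 1) (Or.inl rfl) (x := (n : ℤ)) (by omega) k
      rcases kn_cases hk with h2 | h2 | h2
      · omega
      · exact mg_trans ⟨k, 0, rfl⟩ h2.2
      · omega
    have hneg : ∀ n : ℕ, 1 ≤ n → ∃ i : Fin 3, Mg (-(n : ℤ)) ((![-1, -5, -17] : Fin 3 → ℤ) i) := by
      intro n hn
      obtain ⟨k, hk⟩ := h (-(n : ℤ))
      have h1 := iter_sign (s := -1) (Or.inr rfl) (x := -(n : ℤ)) (by omega) k
      rcases kn_cases hk with h2 | h2 | ⟨_, h2 | h2 | h2⟩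
      · omega
      · omega
      · exact ⟨0, mg_trans ⟨k, 0, rfl⟩ h2⟩
      · exact ⟨1, mg_trans ⟨k, 0, rfl⟩ h2⟩
      · exact ⟨2, mg_trans ⟨k, 0, rfl⟩ h2⟩
    refine ⟨full 2 _ fun x hx => mg_trans (hpos _ (hx 0)) (mg_symm (hpos _ (hx 1))),
      full 4 _ fun x hx => ?_⟩
    choose κ hκ using fun i => hneg (x i) (hx i)
    obtain ⟨i, j, hij, he⟩ := Fintype.exists_ne_map_eq_of_card_lt κ (by simp)
    exact ⟨i, j, hij, mg_trans (hκ i) (he ▸ mg_symm (hκ j))⟩
  · rintro ⟨h2, h4⟩ x
    rcases lt_trichotomy x 0 with hx | rfl | hx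
    · by_contra hcon
      have m1 : ¬ Mg x (-1) := fun h => hcon (reach_of_mg (by simp [Kn]) h)
      have m2 : ¬ Mg x (-5) := fun h => hcon (reach_of_mg (by simp [Kn]) h)
      have m3 : ¬ Mg x (-17) := fun h => hcon (reach_of_mg (by simp [Kn]) h)
      refine not_all (s := -1) (Or.inr rfl) (r := 4) ![-1, -5, -17, x] ?_ ?_ ?_
      · intro i
        fin_cases i
        · show (0 : ℤ) < -1 * -1
          decide
        · show (0 : ℤ) < -1 * -5
          decide
        · show (0 : ℤ) < -1 * -17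
          decide
        · show 0 < -1 * x
          omega
      · intro i j hij
        fin_cases i <;> fin_cases j
        · exact absurd rfl hij
        · exact n12
        · exact n13
        · exact fun h => m1 (mg_symm h)
        · exact fun h => n12 (mg_symm h)
        · exact absurd rfl hij
        · exact n23
        · exact fun h => m2 (mg_symm h)
        · exact fun h => n13 (mg_symm h)
        · exact fun h => n23 (mg_symm h)
        · exact absurd rfl hij
        · exact fun h => m3 (mg_symm h)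
        · exact m1
        · exact m2
        · exact m3
        · exact absurd rfl hij
      · refine h4.congr fun N => ?_
        congr 1
        refine cnt_congr fun x _ => ?_
        simp only [neg_mul, one_mul]
    · exact ⟨0, by simp [Kn]⟩
    · by_contra hcon
      have m1 : ¬ Mg x 1 := fun h => hcon (reach_of_mg (by simp [Kn]) h)
      refine not_all (s := 1) (Or.inl rfl) (r := 2) ![1, x] ?_ ?_ ?_
      · intro i
        fin_cases i
        · show (0 : ℤ) < 1 * 1
          decide
        · show 0 < 1 * x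
          omega
      · intro i j hij
        fin_cases i <;> fin_cases j
        · exact absurd rfl hij
        · exact fun h => m1 (mg_symm h)
        · exact m1
        · exact absurd rfl hij
      · refine h2.congr fun N => ?_
        congr 1
        refine cnt_congr fun x _ => ?_
        simp only [one_mul]
        constructor
        · intro h
          exact ⟨0, 1, by decide, h⟩
        · rintro ⟨i, j, hij, h⟩
          fin_cases i <;> fin_cases j
          · exact absurd rfl hij
          · exact h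
          · exact mg_symm h
          · exact absurd rfl hij

end Pool.Agent.U457.GN
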