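import Pool.Agent.U457.GN.Count

/-!
The law of the last private terms. Author: helper457.
-/

set_option autoImplicit false

namespace Pool.Agent.U457.GN

open Filter Topology Finset

variable {f : ℤ → ℤ} {s : ℤ} {r : ℕ}

/-- few pairs have a last private term outside a finite set -/
def Tight (f : ℤ → ℤ) (s : ℤ) : Prop :=
  ∀ ε : ℝ, 0 < ε → ∃ G : Finset ℤ, ∀ N : ℕ, cp N (fun m n => ∃ c, c ∉ G ∧ Vis f (s * m) c ∧
    ¬ Vis f (s * n) c ∧ Vis f (s * n) (f c)) ≤ ε * (N : ℝ) ^ 2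

theorem tight_tuple (h : Tight f s) (r : ℕ) {ε : ℝ} (hε : 0 < ε) : ∃ G : Finset (Fin r → ℤ),
    ∀ N : ℕ, 1 ≤ N → cnt r N (fun x => ∃ b, b ∉ G ∧ Gen f (fun i => s * (x i : ℤ)) b)
      ≤ ε * (N : ℝ) ^ r := by
  classical
  obtain ⟨G, hG⟩ := h (ε / ((r : ℝ) ^ 2 + 1)) (by positivity)
  refine ⟨Fintype.piFinset (fun _ => G), fun N hN => ?_⟩
  have hN0 : (0 : ℝ) < N := by exact_mod_cast hN
  set Q : ℕ → ℕ → Prop := fun m n => ∃ c, c ∉ G ∧ Vis f (s * m) c ∧
    ¬ Vis f (s * n) c ∧ Vis f (s * n) (f c) with hQ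
  have h1 : cnt r N (fun x => ∃ b, b ∉ Fintype.piFinset (fun _ => G) ∧
      Gen f (fun i => s * (x i : ℤ)) b) ≤
      cnt r N (fun x => ∃ p ∈ (Finset.univ : Finset (Fin r × Fin r)).filter (fun p => p.1 ≠ p.2),
        Q (x p.1) (x p.2)) := by
    refine cnt_mono fun x _ => ?_
    rintro ⟨b, hb, hgen⟩
    rw [Fintype.mem_piFinset] at hb
    push Not at hb
    obtain ⟨i, hi⟩ := hb
    obtain ⟨h1, h2, j, hj, h3⟩ := hgen i
    exact ⟨(i, j), by simpa using hj.symm, b i, hi, h1, h2 j hj, h3⟩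
  refine h1.trans ((cnt_exists _ _).trans ?_)
  have h2 : ∀ p ∈ (Finset.univ : Finset (Fin r × Fin r)).filter (fun p => p.1 ≠ p.2),
      cnt r N (fun x => Q (x p.1) (x p.2)) ≤ ε / ((r : ℝ) ^ 2 + 1) * (N : ℝ) ^ r := by
    intro p hp
    rw [Finset.mem_filter] at hp
    have h3 := cnt_pair (N := N) hp.2 Q
    have h4 := mul_le_mul_of_nonneg_right (hG N) (by positivity : (0 : ℝ) ≤ (N : ℝ) ^ r)
    have h5 := h3.trans h4
    have h6 : cnt r N (fun x => Q (x p.1) (x p.2)) * (N : ℝ) ^ 2 ≤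
        (ε / ((r : ℝ) ^ 2 + 1) * (N : ℝ) ^ r) * (N : ℝ) ^ 2 := h5.trans (le_of_eq (by ring))
    exact le_of_mul_le_mul_right h6 (by positivity)
  refine (Finset.sum_le_sum h2).trans ?_
  rw [Finset.sum_const, nsmul_eq_mul]
  have h3 : (((Finset.univ : Finset (Fin r × Fin r)).filter (fun p => p.1 ≠ p.2)).card : ℝ)
      ≤ (r : ℝ) ^ 2 + 1 := by
    have : ((Finset.univ : Finset (Fin r × Fin r)).filter (fun p => p.1 ≠ p.2)).card ≤ r * r := by
      refine (Finset.card_filter_le _ _).trans ?_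
      simp
    have h4 : (((Finset.univ : Finset (Fin r × Fin r)).filter (fun p => p.1 ≠ p.2)).card : ℝ)
        ≤ ((r * r : ℕ) : ℝ) := by exact_mod_cast this
    push_cast at h4
    nlinarith
  have h4 : 0 < ε / ((r : ℝ) ^ 2 + 1) * (N : ℝ) ^ r := by positivity
  refine (mul_le_mul_of_nonneg_right h3 h4.le).trans (le_of_eq ?_)
  field_simp

theorem law (ht : Tight f s) (E : Fin r → ℤ → ℕ → Prop) (L : Fin r → ℤ → ℝ)
    (hE : ∀ i b (n : ℕ), E i b n → Vis f (s * n) b) (hL : ∀ i b, Dens (E i b) (L i b)) :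
    Summable (fun b : {b : Fin r → ℤ // Gen f b b} => ∏ i, L i (b.1 i)) ∧
    ∀ ε : ℝ, 0 < ε → ∃ N₀ : ℕ, ∀ N ≥ N₀, ∀ B : Set (Fin r → ℤ),
      |cnt r N (fun x => ∃ b ∈ B, Gen f (fun i => s * (x i : ℤ)) b ∧ ∀ i, E i (b i) (x i))
        - (∑' b : {b : Fin r → ℤ // b ∈ B ∧ Gen f b b}, ∏ i, L i (b.1 i)) * (N : ℝ) ^ r|
        ≤ ε * (N : ℝ) ^ r := by
  classical
  set lam : (Fin r → ℤ) → ℝ := fun b => ∏ i, L i (b i) with hlam
  have hlam0 : ∀ b, 0 ≤ lam b := fun b => Finset.prod_nonneg fun i _ => (hL i (b i)).nonneg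
  set P : (Fin r → ℤ) → (Fin r → ℕ) → Prop := fun b x =>
    Gen f (fun i => s * (x i : ℤ)) b ∧ ∀ i, E i (b i) (x i) with hP
  have huniq : ∀ x b b', P b x → P b' x → b = b' := fun x b b' h h' => gen_unique h.1 h'.1
  have hW : ∀ b, Gen f b b → Tendsto (fun N : ℕ => cnt r N (P b) / (N : ℝ) ^ r) atTop
      (𝓝 (lam b)) := by
    intro b hb
    refine (prod_tendsto (fun i => hL i (b i))).congr fun N => ?_
    congr 1
    refine cnt_congr fun x _ => ⟨fun h => ⟨?_, h⟩, fun h => h.2⟩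
    exact (gen_iff hb).2 fun i => hE i _ _ (h i)
  -- sums over finite sets of admissible vectors
  have hsum : ∀ (A : Finset (Fin r → ℤ)), (∀ b ∈ A, Gen f b b) → ∀ (δ : ℝ) (N₁ : ℕ),
      (∀ N ≥ N₁, cnt r N (fun x => ∃ b ∈ A, P b x) ≤ δ * (N : ℝ) ^ r) → ∑ b ∈ A, lam b ≤ δ := by
    intro A hA δ N₁ hN
    have h1 := tendsto_finsetSum A (fun b hb => hW b (hA b hb))
    refine le_of_tendsto h1 ?_
    filter_upwards [eventually_ge_atTop (max N₁ 1)] with N hN'
    have hN0 : (0 : ℝ) < N := by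
      exact_mod_cast (le_max_right _ _).trans hN'
    rw [← Finset.sum_div, div_le_iff₀ (by positivity), ← cnt_disj A P huniq]
    exact hN N ((le_max_left _ _).trans hN')
  set g : (Fin r → ℤ) → ℝ := fun b => if Gen f b b then lam b else 0 with hg
  have hg0 : ∀ b, 0 ≤ g b := by
    intro b
    simp only [hg]
    split_ifs
    · exact hlam0 b
    · exact le_rfl
  have hgsum : ∀ (A : Finset (Fin r → ℤ)), ∑ b ∈ A, g b = ∑ b ∈ A.filter (fun b => Gen f b b), lam b := by
    intro A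
    rw [Finset.sum_filter]
  have hsummable : Summable g := by
    refine summable_of_sum_le (c := 1) hg0 fun A => ?_
    rw [hgsum]
    refine hsum _ (fun b hb => (Finset.mem_filter.1 hb).2) 1 0 fun N _ => ?_
    rw [one_mul]
    exact cnt_le _ _ _
  refine ⟨?_, ?_⟩
  · have h1 : Summable (g ∘ (Subtype.val : {b : Fin r → ℤ // Gen f b b} → _)) :=
      hsummable.subtype _
    refine h1.congr fun b => ?_
    simp only [Function.comp, hg, if_pos b.2, hlam]
  · intro ε hε
    obtain ⟨G, hG⟩ := tight_tuple ht r (ε := ε / 3) (by positivity)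
    -- the finitely many main terms
    have hfin : Tendsto (fun N : ℕ => ∑ b ∈ G.filter (fun b => Gen f b b),
        |cnt r N (P b) / (N : ℝ) ^ r - lam b|) atTop (𝓝 0) := by
      have h1 := tendsto_finsetSum (G.filter (fun b => Gen f b b)) (fun b hb =>
        ((hW b (Finset.mem_filter.1 hb).2).sub_const (lam b)).abs)
      simpa using h1
    obtain ⟨N₁, hN₁⟩ := eventually_atTop.1 (hfin.eventually_lt_const (show (0 : ℝ) < ε / 3 by positivity))
    refine ⟨max N₁ 1, fun N hN B => ?_⟩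
    have hN1 : 1 ≤ N := (le_max_right _ _).trans hN
    have hN0 : (0 : ℝ) < N := by exact_mod_cast hN1
    have hNr : (0 : ℝ) < (N : ℝ) ^ r := by positivity
    have hmain := hN₁ N ((le_max_left _ _).trans hN)
    set GB := G.filter (fun b => b ∈ B ∧ Gen f b b) with hGB
    have hGBsub : GB ⊆ G.filter (fun b => Gen f b b) := by
      intro b hb
      rw [hGB, Finset.mem_filter] at hb
      exact Finset.mem_filter.2 ⟨hb.1, hb.2.2⟩
    -- the main terms
    have e1 : |∑ b ∈ GB, cnt r N (P b) - (∑ b ∈ GB, lam b) * (N : ℝ) ^ r| ≤ ε / 3 * (N : ℝ) ^ r := by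
      have h1 : ∑ b ∈ GB, cnt r N (P b) - (∑ b ∈ GB, lam b) * (N : ℝ) ^ r
          = (∑ b ∈ GB, (cnt r N (P b) / (N : ℝ) ^ r - lam b)) * (N : ℝ) ^ r := by
        rw [Finset.sum_mul, Finset.sum_mul, ← Finset.sum_sub_distrib]
        apply Finset.sum_congr rfl
        intro b _
        field_simp
      rw [h1, abs_mul, abs_of_pos hNr]
      refine mul_le_mul_of_nonneg_right ?_ hNr.le
      refine (Finset.abs_sum_le_sum_abs _ _).trans ((Finset.sum_le_sum_of_subset_of_nonneg hGBsub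
        fun _ _ _ => abs_nonneg _).trans hmain.le)
    -- the count
    have e2 : ∑ b ∈ GB, cnt r N (P b) ≤ cnt r N (fun x => ∃ b ∈ B, P b x) := by
      rw [← cnt_disj GB P huniq]
      refine cnt_mono fun x _ => ?_
      rintro ⟨b, hb, hx⟩
      exact ⟨b, (Finset.mem_filter.1 hb).2.1, hx⟩
    have e3 : cnt r N (fun x => ∃ b ∈ B, P b x) ≤ ∑ b ∈ GB, cnt r N (P b) + ε / 3 * (N : ℝ) ^ r := by
      refine le_trans ?_ (add_le_add (le_of_eq (cnt_disj GB P huniq)) (hG N hN1))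
      refine le_trans (cnt_mono fun x _ => ?_) (cnt_or _ _)
      rintro ⟨b, hb, hx⟩
      by_cases hbG : b ∈ G
      · left
        exact ⟨b, Finset.mem_filter.2 ⟨hbG, hb, gen_self hx.1⟩, hx⟩
      · right
        exact ⟨b, hbG, hx.1⟩
    -- the sum
    have e4 : (∑' b : {b : Fin r → ℤ // b ∈ B ∧ Gen f b b}, ∏ i, L i (b.1 i))
        = ∑' b, (if b ∈ B ∧ Gen f b b then lam b else 0) := by
      have h1 := tsum_subtype {b : Fin r → ℤ | b ∈ B ∧ Gen f b b} lam
      refine Eq.trans ?_ (h1.trans ?_)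
      · rfl
      · apply tsum_congr
        intro b
        rw [Set.indicator_apply]
        rfl
    set gB : (Fin r → ℤ) → ℝ := fun b => if b ∈ B ∧ Gen f b b then lam b else 0 with hgB
    have hgB0 : ∀ b, 0 ≤ gB b := by
      intro b
      simp only [hgB]
      split_ifs
      · exact hlam0 b
      · exact le_rfl
    have hgBg : ∀ b, gB b ≤ g b := by
      intro b
      simp only [hgB, hg]
      by_cases h1 : b ∈ B ∧ Gen f b b
      · rw [if_pos h1, if_pos h1.2]
      · rw [if_neg h1]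
        exact hg0 b
    have hsB : Summable gB := Summable.of_nonneg_of_le hgB0 hgBg hsummable
    have hGBs : ∑ b ∈ G, gB b = ∑ b ∈ GB, lam b := by
      rw [hGB, Finset.sum_filter]
    have e5 : ∑ b ∈ GB, lam b ≤ ∑' b, gB b := by
      rw [← hGBs]
      exact hsB.sum_le_tsum _ fun b _ => hgB0 b
    have e6 : ∑' b, gB b ≤ ∑ b ∈ GB, lam b + ε / 3 := by
      refine hsB.tsum_le_of_sum_le fun A => ?_
      have h1 : ∑ b ∈ A, gB b ≤ ∑ b ∈ G ∪ (A \ G), gB b := by
        apply Finset.sum_le_sum_of_subset_of_nonneg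
        · intro b hb
          rw [Finset.mem_union, Finset.mem_sdiff]
          by_cases h : b ∈ G
          · exact Or.inl h
          · exact Or.inr ⟨hb, h⟩
        · intro b _ _
          exact hgB0 b
      rw [Finset.sum_union Finset.disjoint_sdiff, hGBs] at h1
      refine h1.trans (add_le_add le_rfl ?_)
      refine (Finset.sum_le_sum fun b _ => hgBg b).trans ?_
      rw [hgsum]
      refine hsum _ (fun b hb => (Finset.mem_filter.1 hb).2) _ 1 fun M hM => ?_
      refine le_trans (cnt_mono fun x _ => ?_) (hG M hM)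
      rintro ⟨b, hb, hx⟩
      rw [Finset.mem_filter, Finset.mem_sdiff] at hb
      exact ⟨b, hb.1.2, hx.1⟩
    rw [e4]
    change |cnt r N (fun x => ∃ b ∈ B, P b x) - (∑' b, gB b) * (N : ℝ) ^ r| ≤ _
    rw [abs_le] at e1 ⊢
    have e7 := mul_le_mul_of_nonneg_right e5 hNr.le
    have e8 := mul_le_mul_of_nonneg_right e6 hNr.le
    rw [add_mul] at e8
    constructor
    · linarith [e1.1]
    · linarith [e1.2]

end Pool.Agent.U457.GN
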