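import Pool.Agent.U457.GN.Coll
import Pool.Agent.Results.MP_d02c56_nt.NaturalDensities

/-!
The Collatz map on the integers: pairs of trajectories, classes. Author: helper457.
-/

set_option autoImplicit false

namespace Pool.Agent.U457.GN

open Filter Topology

/-- the trajectories of `a` and `b` merge -/
def Mg (a b : ℤ) : Prop := ∃ i j : ℕ, C^[i] a = C^[j] b

theorem mg_iff {a b : ℤ} : Mg a b ↔ ∃ w, Vis C a w ∧ Vis C b w := by
  constructor
  · rintro ⟨i, j, h⟩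
    exact ⟨C^[i] a, ⟨i, rfl⟩, ⟨j, h.symm⟩⟩
  · rintro ⟨w, ⟨i, hi⟩, j, hj⟩
    exact ⟨i, j, hi.trans hj.symm⟩

theorem mg_refl (a : ℤ) : Mg a a := ⟨0, 0, rfl⟩

theorem mg_symm {a b : ℤ} (h : Mg a b) : Mg b a := by
  obtain ⟨i, j, h⟩ := h
  exact ⟨j, i, h.symm⟩

theorem mg_trans {a b c : ℤ} (h : Mg a b) (h' : Mg b c) : Mg a c := by
  obtain ⟨i, j, h⟩ := h
  obtain ⟨k, l, h'⟩ := h'
  refine ⟨k + i, j + l, ?_⟩
  rw [Function.iterate_add_apply, h, ← Function.iterate_add_apply, Nat.add_comm k j,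
    Function.iterate_add_apply, h', ← Function.iterate_add_apply]

/-! ### merging pairs -/

theorem cnt_two (N : ℕ) (Q : ℕ → ℕ → Prop) : cnt 2 N (fun x => Q (x 0) (x 1)) ≤ cp N Q := by
  rcases Nat.eq_zero_or_pos N with rfl | hN
  · have h := cnt_le 2 0 (fun x => Q (x 0) (x 1))
    refine h.trans ?_
    unfold cp
    push_cast
    simp
  · have h := cnt_pair (N := N) (i := (0 : Fin 2)) (j := 1) (by decide) Q
    have hN0 : (0 : ℝ) < (N : ℝ) ^ 2 := by
      have : (0 : ℝ) < N := by exact_mod_cast hN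
      positivity
    exact le_of_mul_le_mul_right h hN0

theorem cp_swap (N : ℕ) (Q : ℕ → ℕ → Prop) : cp N (fun m n => Q n m) = cp N Q := by
  classical
  unfold cp
  congr 1
  apply Finset.card_bij (fun p _ => (p.2, p.1))
  · intro p hp
    rw [mem_fp] at hp ⊢
    exact ⟨⟨hp.1.2, hp.1.1⟩, hp.2⟩
  · intro p _ q _ h
    rw [Prod.mk.injEq] at h
    exact Prod.ext h.2 h.1
  · intro p hp
    rw [mem_fp] at hp
    refine ⟨(p.2, p.1), ?_, rfl⟩
    rw [mem_fp]
    exact ⟨⟨hp.1.2, hp.1.1⟩, hp.2⟩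

/-- the merging pairs and the pairs with last private terms -/
theorem merge_pairs {s : ℤ} (hs : s = 1 ∨ s = -1) {σ : ℝ}
    (h : ∀ ε : ℝ, 0 < ε → ∃ N₀ : ℕ, ∀ N ≥ N₀,
      |cnt 2 N (fun x => ∃ b, Gen C (fun i => s * (x i : ℤ)) b) - σ * (N : ℝ) ^ 2|
        ≤ ε * (N : ℝ) ^ 2) :
    Tendsto (fun N : ℕ => cnt 2 N (fun x => Mg (s * x 0) (s * x 1)) / (N : ℝ) ^ 2) atTop (𝓝 σ) := by
  rw [Metric.tendsto_atTop]
  intro ε hε
  obtain ⟨N₁, h1⟩ := h (ε / 4) (by positivity)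
  obtain ⟨N₂, h2⟩ := comparable_rare hs (ε := ε / 4) (by positivity)
  refine ⟨max (max N₁ N₂) 1, fun N hN => ?_⟩
  have hN1 : 1 ≤ N := (le_max_right _ _).trans hN
  have hNR : (0 : ℝ) < (N : ℝ) ^ 2 := by
    have : (0 : ℝ) < N := by exact_mod_cast hN1
    positivity
  have e1 := h1 N ((le_max_left _ _).trans ((le_max_left _ _).trans hN))
  have e2 := h2 N ((le_max_right _ _).trans ((le_max_left _ _).trans hN))
  obtain ⟨Q1, hQ1⟩ : ∃ Q1 : ℕ → ℕ → Prop, Q1 = fun (m n : ℕ) => Vis C (s * n) (s * m) := ⟨_, rfl⟩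
  obtain ⟨Q2, hQ2⟩ : ∃ Q2 : ℕ → ℕ → Prop, Q2 = fun (m n : ℕ) => Vis C (s * m) (s * n) := ⟨_, rfl⟩
  obtain ⟨A, hA⟩ : ∃ A : (Fin 2 → ℕ) → Prop, A = fun x => ∃ b, Gen C (fun i => s * (x i : ℤ)) b :=
    ⟨_, rfl⟩
  have f1 : cnt 2 N (fun x => Mg (s * x 0) (s * x 1)) ≤
      cnt 2 N (fun x => A x ∨ (Q1 (x 0) (x 1) ∨ Q2 (x 0) (x 1))) := by
    refine cnt_mono fun x _ hx => ?_
    by_cases c1 : Vis C (s * x 1) (s * x 0)
    · right; left
      rw [hQ1]; exact c1
    by_cases c2 : Vis C (s * x 0) (s * x 1)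
    · right; right
      rw [hQ2]; exact c2
    left
    rw [hA]
    obtain ⟨w, hw1, hw2⟩ := mg_iff.1 hx
    exact gen_exists (y := fun i => s * (x i : ℤ)) hw1 hw2 c2 c1
  have f2 := cnt_or (r := 2) (N := N) A (fun x => Q1 (x 0) (x 1) ∨ Q2 (x 0) (x 1))
  have f3 := cnt_or (r := 2) (N := N) (fun x => Q1 (x 0) (x 1)) (fun x => Q2 (x 0) (x 1))
  have f4 := cnt_two N Q1
  have f5 := cnt_two N Q2
  have f6 : cp N Q2 = cp N Q1 := by
    rw [hQ1, hQ2]
    exact cp_swap N (fun m n => Vis C (s * n) (s * m))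
  rw [← hQ1] at e2
  rw [← hA] at e1
  have e3 : cnt 2 N (fun x => Mg (s * x 0) (s * x 1)) ≤ cnt 2 N A + (cp N Q1 + cp N Q1) := by
    linarith
  have e4 : cnt 2 N A ≤ cnt 2 N (fun x => Mg (s * x 0) (s * x 1)) := by
    refine cnt_mono fun x _ => ?_
    rw [hA]
    rintro ⟨b, hb⟩
    rw [mg_iff]
    obtain ⟨h1, _, j, hj, h3⟩ := hb 0
    have hj1 : j = 1 := by
      fin_cases j
      · exact absurd rfl hj
      · rfl
    subst hj1
    exact ⟨C (b 0), vis_trans h1 (vis_step _), h3⟩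
  rw [Real.dist_eq]
  have e5 : cnt 2 N (fun x => Mg (s * x 0) (s * x 1)) / (N : ℝ) ^ 2 - σ =
      (cnt 2 N (fun x => Mg (s * x 0) (s * x 1)) - σ * (N : ℝ) ^ 2) / (N : ℝ) ^ 2 := by
    field_simp
  rw [e5, abs_div, abs_of_pos hNR, div_lt_iff₀ hNR, abs_lt]
  rw [abs_le] at e1
  have e6 : 0 < ε * (N : ℝ) ^ 2 := by positivity
  constructor
  · linarith [e1.1]
  · linarith [e1.2]

/-! ### the first common term -/

/-- `a` is the first common term of the trajectories of `y` and `y'` -/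
def FC (y y' a : ℤ) : Prop := ∃ i j : ℕ, C^[i] y = a ∧ C^[j] y' = a ∧
  (∀ k < i, ¬ Vis C y' (C^[k] y)) ∧ ∀ k < j, ¬ Vis C y (C^[k] y')

theorem pre_cases {c a : ℤ} (h : C c = a) : c = 2 * a ∨ (a % 6 = 4 ∧ c = (a - 1) / 3) := by
  unfold C at h
  split_ifs at h with h2
  · left; omega
  · right; omega

theorem C_two (a : ℤ) : C (2 * a) = a := by rw [C_even (by omega)]; omega

theorem C_third {a : ℤ} (h : a % 6 = 4) : C ((a - 1) / 3) = a := by
  rw [C_odd (by omega)]; omega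

theorem third_ne {a : ℤ} (h : a % 6 = 4) : (a - 1) / 3 ≠ 2 * a := by
  omega

/-- the two branches at `a` are not comparable -/
theorem not_vis_of {a c d : ℤ} (ha : ¬ Cyc C a) (hc : C c = a) (hd : C d = a) (hne : c ≠ d) :
    ¬ Vis C c d := by
  intro h
  rcases vis_cases h with h1 | h1
  · exact hne h1
  · rw [hc] at h1
    obtain ⟨t, ht⟩ := h1
    apply ha
    refine ⟨t + 1, by omega, ?_⟩
    rw [Function.iterate_succ_apply', ht, hd]

theorem fc_of {y y' a c d : ℤ} (ha : ¬ Cyc C a) (hc : C c = a) (hd : C d = a) (hne : c ≠ d)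
    (h : Vis C y c) (h' : Vis C y' d) : FC y y' a := by
  obtain ⟨i, hi⟩ := h
  obtain ⟨j, hj⟩ := h'
  refine ⟨i + 1, j + 1, by rw [Function.iterate_succ_apply', hi, hc],
    by rw [Function.iterate_succ_apply', hj, hd], ?_, ?_⟩
  · intro k hk hv
    have h1 : Vis C (C^[k] y) c := by
      rw [← hi]; exact vis_of_le (by omega)
    rcases vis_total (vis_trans hv h1) ⟨j, hj⟩ with h2 | h2
    · exact not_vis_of ha hc hd hne h2
    · exact not_vis_of ha hd hc (Ne.symm hne) h2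
  · intro k hk hv
    have h1 : Vis C (C^[k] y') d := by
      rw [← hj]; exact vis_of_le (by omega)
    rcases vis_total (vis_trans hv h1) ⟨i, hi⟩ with h2 | h2
    · exact not_vis_of ha hd hc (Ne.symm hne) h2
    · exact not_vis_of ha hc hd hne h2

theorem fc_cases {y y' a : ℤ} (h : FC y y' a) : y = a ∨ y' = a ∨
    (a % 6 = 4 ∧ ((Vis C y (2 * a) ∧ Vis C y' ((a - 1) / 3)) ∨
      (Vis C y ((a - 1) / 3) ∧ Vis C y' (2 * a)))) := by
  obtain ⟨i, j, hi, hj, h1, h2⟩ := h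
  rcases Nat.eq_zero_or_pos i with rfl | hi0
  · exact Or.inl hi
  rcases Nat.eq_zero_or_pos j with rfl | hj0
  · exact Or.inr (Or.inl hj)
  right; right
  have e1 : C (C^[i - 1] y) = a := by
    rw [← Function.iterate_succ_apply' C, ← hi]
    congr 2
    omega
  have e2 : C (C^[j - 1] y') = a := by
    rw [← Function.iterate_succ_apply' C, ← hj]
    congr 2
    omega
  have hne : C^[i - 1] y ≠ C^[j - 1] y' := by
    intro he
    exact h1 (i - 1) (by omega) ⟨j - 1, he.symm⟩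
  rcases pre_cases e1 with f1 | ⟨f0, f1⟩ <;> rcases pre_cases e2 with f2 | ⟨f3, f2⟩
  · exact absurd (f1.trans f2.symm) hne
  · exact ⟨f3, Or.inl ⟨⟨_, f1⟩, ⟨_, f2⟩⟩⟩
  · exact ⟨f0, Or.inr ⟨⟨_, f1⟩, ⟨_, f2⟩⟩⟩
  · exact absurd (f1.trans f2.symm) hne

theorem small_col {s : ℤ} (hs : s = 1 ∨ s = -1) (a : ℤ) (N : ℕ) (i : Fin 2) :
    cnt 2 N (fun x => s * (x i : ℤ) = a) ≤ N := by
  have h1 : ct N (fun n => s * (n : ℤ) = a) ≤ 1 := by
    unfold ct
    have : (fn N (fun n => s * (n : ℤ) = a)).card ≤ 1 := by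
      rw [Finset.card_le_one]
      intro p hp q hq
      rw [mem_fn] at hp hq
      rcases hs with rfl | rfl <;> omega
    exact_mod_cast this
  obtain ⟨E, hE⟩ : ∃ E : Fin 2 → ℕ → Prop, E = fun (j : Fin 2) (n : ℕ) => j = i → s * (n : ℤ) = a := ⟨_, rfl⟩
  have h2 : cnt 2 N (fun x => s * (x i : ℤ) = a) ≤ cnt 2 N (fun x => ∀ j, E j (x j)) := by
    refine cnt_mono fun x _ hx j => ?_
    rw [hE]
    intro hj
    rw [hj]; exact hx
  refine h2.trans ?_
  rw [cnt_prod, Fin.prod_univ_two, hE]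
  have h3 : ∀ j : Fin 2, ct N (fun n => j = i → s * (n : ℤ) = a) ≤ N := by
    intro j
    unfold ct
    have : (fn N (fun n => j = i → s * (n : ℤ) = a)).card ≤ N := by
      refine (Finset.card_le_card (t := Finset.Icc 1 N) ?_).trans (by simp)
      intro x hx
      rw [Finset.mem_Icc]
      exact (mem_fn.1 hx).1
    exact_mod_cast this
  have h4 : ct N (fun n => i = i → s * (n : ℤ) = a) ≤ 1 := by
    refine le_trans (le_of_eq ?_) h1
    congr 1
    funext n
    simp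
  have hN0 : (0 : ℝ) ≤ N := Nat.cast_nonneg _
  fin_cases i
  · have := mul_le_mul h4 (h3 1) (ct_nonneg _ _) zero_le_one
    simpa using this
  · have := mul_le_mul (h3 0) h4 (ct_nonneg _ _) hN0
    simpa using this

theorem fc_law {s : ℤ} (hs : s = 1 ∨ s = -1) {D : ℤ → ℝ}
    (hD : ∀ b, Dens (fun n => Vis C (s * n) b) (D b)) {a : ℤ} (ha : ¬ Cyc C a) :
    Tendsto (fun N : ℕ => cnt 2 N (fun x => FC (s * x 0) (s * x 1) a) / (N : ℝ) ^ 2) atTop
      (𝓝 (if a % 6 = 4 then 2 * D (2 * a) * D ((a - 1) / 3) else 0)) := by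
  have herr : Tendsto (fun N : ℕ => (2 * (N : ℝ)) / (N : ℝ) ^ 2) atTop (𝓝 0) := by
    have h1 : Tendsto (fun N : ℕ => 2 / (N : ℝ)) atTop (𝓝 0) :=
      tendsto_const_div_atTop_nhds_zero_nat 2
    refine h1.congr' ?_
    filter_upwards [eventually_ge_atTop 1] with N hN
    have : (0 : ℝ) < N := by exact_mod_cast hN
    field_simp
  have hsm : ∀ N : ℕ, cnt 2 N (fun x => s * (x 0 : ℤ) = a ∨ s * (x 1 : ℤ) = a) ≤ 2 * N := by
    intro N
    refine (cnt_or _ _).trans ?_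
    have h0 := small_col hs a N 0
    have h1 := small_col hs a N 1
    linarith
  by_cases h4 : a % 6 = 4
  · rw [if_pos h4]
    have hne := third_ne h4
    -- the product events
    set P : (Fin 2 → ℕ) → Prop := fun x => ∀ i, (fun (i : Fin 2) (n : ℕ) =>
      Vis C (s * n) ((![2 * a, (a - 1) / 3] : Fin 2 → ℤ) i)) i (x i) with hP
    set Q : (Fin 2 → ℕ) → Prop := fun x => ∀ i, (fun (i : Fin 2) (n : ℕ) =>
      Vis C (s * n) ((![(a - 1) / 3, 2 * a] : Fin 2 → ℤ) i)) i (x i) with hQ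
    have hPl := prod_tendsto (r := 2) (E := fun (i : Fin 2) (n : ℕ) =>
      Vis C (s * n) ((![2 * a, (a - 1) / 3] : Fin 2 → ℤ) i)) (fun i => hD _)
    have hQl := prod_tendsto (r := 2) (E := fun (i : Fin 2) (n : ℕ) =>
      Vis C (s * n) ((![(a - 1) / 3, 2 * a] : Fin 2 → ℤ) i)) (fun i => hD _)
    have hlim := hPl.add hQl
    have hval : (∏ i : Fin 2, D ((![2 * a, (a - 1) / 3] : Fin 2 → ℤ) i)) +
        (∏ i : Fin 2, D ((![(a - 1) / 3, 2 * a] : Fin 2 → ℤ) i)) =
        2 * D (2 * a) * D ((a - 1) / 3) := by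
      rw [Fin.prod_univ_two, Fin.prod_univ_two]
      simp only [Matrix.cons_val_zero, Matrix.cons_val_one]
      ring
    rw [hval] at hlim
    have hPx : ∀ x, P x ↔ Vis C (s * x 0) (2 * a) ∧ Vis C (s * x 1) ((a - 1) / 3) := by
      intro x
      simp only [hP, Fin.forall_fin_two, Matrix.cons_val_zero, Matrix.cons_val_one]
    have hQx : ∀ x, Q x ↔ Vis C (s * x 0) ((a - 1) / 3) ∧ Vis C (s * x 1) (2 * a) := by
      intro x
      simp only [hQ, Fin.forall_fin_two, Matrix.cons_val_zero, Matrix.cons_val_one]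
    have hdisj : ∀ x, P x → ¬ Q x := by
      intro x hx hx'
      rw [hPx] at hx
      rw [hQx] at hx'
      rcases vis_total hx.1 hx'.1 with h | h
      · exact not_vis_of ha (C_two a) (C_third h4) (Ne.symm hne) h
      · exact not_vis_of ha (C_third h4) (C_two a) hne h
    have hlow : ∀ N : ℕ, cnt 2 N P + cnt 2 N Q ≤ cnt 2 N (fun x => FC (s * x 0) (s * x 1) a) := by
      intro N
      rw [← cnt_add hdisj]
      refine cnt_mono fun x _ hx => ?_
      rcases hx with hx | hx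
      · rw [hPx] at hx
        exact fc_of ha (C_two a) (C_third h4) (Ne.symm hne) hx.1 hx.2
      · rw [hQx] at hx
        exact fc_of ha (C_third h4) (C_two a) hne hx.1 hx.2
    have hup : ∀ N : ℕ, cnt 2 N (fun x => FC (s * x 0) (s * x 1) a) ≤
        cnt 2 N P + cnt 2 N Q + 2 * N := by
      intro N
      rw [← cnt_add hdisj]
      refine le_trans (cnt_mono (Q := fun x => (P x ∨ Q x) ∨
        (s * (x 0 : ℤ) = a ∨ s * (x 1 : ℤ) = a)) ?_) ((cnt_or _ _).trans (add_le_add le_rfl (hsm N)))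
      intro x _ hx
      rcases fc_cases hx with h | h | ⟨_, h | h⟩
      · exact Or.inr (Or.inl h)
      · exact Or.inr (Or.inr h)
      · exact Or.inl (Or.inl ((hPx x).2 h))
      · exact Or.inl (Or.inr ((hQx x).2 h))
    have hup2 := hlim.add herr
    rw [add_zero] at hup2
    refine tendsto_of_tendsto_of_tendsto_of_le_of_le hlim hup2 (fun N => ?_) (fun N => ?_)
    · show cnt 2 N P / (N : ℝ) ^ 2 + cnt 2 N Q / (N : ℝ) ^ 2 ≤ _
      rw [← add_div]
      exact div_le_div_of_nonneg_right (hlow N) (by positivity)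
    · show _ ≤ cnt 2 N P / (N : ℝ) ^ 2 + cnt 2 N Q / (N : ℝ) ^ 2 + 2 * (N : ℝ) / (N : ℝ) ^ 2
      rw [← add_div, ← add_div]
      exact div_le_div_of_nonneg_right (hup N) (by positivity)
  · rw [if_neg h4]
    refine squeeze_zero (fun N => div_nonneg (cnt_nonneg _ _ _) (by positivity)) (fun N => ?_) herr
    refine div_le_div_of_nonneg_right ?_ (by positivity)
    refine le_trans (cnt_mono fun x _ hx => ?_) (hsm N)
    rcases fc_cases hx with h | h | ⟨h, _⟩
    · exact Or.inl h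
    · exact Or.inr h
    · exact absurd h h4

/-! ### classes -/

/-- pairwise different classes -/
theorem not_all {s : ℤ} (hs : s = 1 ∨ s = -1) {r : ℕ} (c : Fin r → ℤ) (hc : ∀ i, 0 < s * c i)
    (hne : ∀ i j, i ≠ j → ¬ Mg (c i) (c j))
    (h : Tendsto (fun N : ℕ => cnt r N (fun x => ∃ i j, i ≠ j ∧ Mg (s * x i) (s * x j)) / (N : ℝ) ^ r)
      atTop (𝓝 1)) : False := by
  obtain ⟨δ, hδ, _, _⟩ := Pool.Agent.Results.MP_d02c56_nt.NaturalDensities.result s hs
  have hdens : ∀ i, Dens (fun n => Mg (s * n) (c i)) (δ (c i)) := by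
    intro i
    have h1 := (hδ (c i) (hc i)).2
    refine Tendsto.congr (fun N => ?_) h1
    congr 1
    rw [← ct_ncard]
    norm_cast
    refine (Set.ncard_congr (fun (n : ℕ) _ => s * (n : ℤ)) ?_ ?_ ?_).symm
    · rintro n ⟨h2, h3, h4⟩
      refine ⟨?_, ?_, h4⟩
      · rcases hs with rfl | rfl <;> omega
      · rcases hs with rfl | rfl <;> omega
    · intro a b _ _ hab
      rcases hs with rfl | rfl <;> omega
    · rintro x ⟨h2, h3, h4⟩
      refine ⟨(s * x).toNat, ⟨by omega, by omega, ?_⟩, ?_⟩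
      · have : s * (((s * x).toNat : ℕ) : ℤ) = x := by
          rw [Int.toNat_of_nonneg h2.le]
          rcases hs with rfl | rfl <;> ring
        show Mg (s * (((s * x).toNat : ℕ) : ℤ)) (c i)
        rw [this]
        exact h4
      · show s * (((s * x).toNat : ℕ) : ℤ) = x
        rw [Int.toNat_of_nonneg h2.le]
        rcases hs with rfl | rfl <;> ring
  have h1 := prod_tendsto hdens
  have h2 := h.add h1
  have h3 : 1 + ∏ i, δ (c i) ≤ 1 := by
    refine le_of_tendsto h2 ?_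
    filter_upwards [eventually_ge_atTop 1] with N hN
    have hN0 : (0 : ℝ) < (N : ℝ) ^ r := by
      have : (0 : ℝ) < N := by exact_mod_cast hN
      positivity
    rw [← add_div, div_le_one hN0, ← cnt_add]
    · exact cnt_le _ _ _
    · rintro x ⟨i, j, hij, hm⟩ hx
      exact hne i j hij (mg_trans (mg_symm (hx i)) (mg_trans hm (hx j)))
  have h4 : 0 < ∏ i, δ (c i) := Finset.prod_pos fun i _ => (hδ (c i) (hc i)).1
  linarith

end Pool.Agent.U457.GN
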